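import Mathlib

set_option autoImplicit false

/-!
# An auxiliary inequality for the trace of totally positive algebraic integers
-/

noncomputable section

namespace Pool.Agent.Fin74

lemma lg (a b c d : ℤ) : Real.log ((2 : ℝ) ^ a * (3 : ℝ) ^ b * (5 : ℝ) ^ c * (7 : ℝ) ^ d) =
    a * Real.log 2 + b * Real.log 3 + c * Real.log 5 + d * Real.log 7 := by
  have h2 : ((2 : ℝ) ^ a) ≠ 0 := zpow_ne_zero _ (by norm_num)
  have h3 : ((3 : ℝ) ^ b) ≠ 0 := zpow_ne_zero _ (by norm_num)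
  have h5 : ((5 : ℝ) ^ c) ≠ 0 := zpow_ne_zero _ (by norm_num)
  have h7 : ((7 : ℝ) ^ d) ≠ 0 := zpow_ne_zero _ (by norm_num)
  rw [Real.log_mul (mul_ne_zero (mul_ne_zero h2 h3) h5) h7, Real.log_mul (mul_ne_zero h2 h3) h5,
    Real.log_mul h2 h3, Real.log_zpow, Real.log_zpow, Real.log_zpow, Real.log_zpow]

/-- Numerical values of logarithms. -/
lemma log_bounds : (1.0985 : ℝ) < Real.log 3 ∧ Real.log 3 < 1.0987 ∧ (1.6093 : ℝ) < Real.log 5 ∧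
    Real.log 5 < 1.6096 ∧ (1.9458 : ℝ) < Real.log 7 ∧ Real.log 7 < 1.9461 := by
  have a1 := lg (-5) 2 2 (-1)
  have a2 := lg (-5) (-1) (-2) 4
  have a3 := lg (-1) (-7) 4 1
  rw [show (2 : ℝ) ^ (-5 : ℤ) * (3 : ℝ) ^ (2 : ℤ) * (5 : ℝ) ^ (2 : ℤ) * (7 : ℝ) ^ (-1 : ℤ) =
    225 / 224 by norm_num] at a1
  rw [show (2 : ℝ) ^ (-5 : ℤ) * (3 : ℝ) ^ (-1 : ℤ) * (5 : ℝ) ^ (-2 : ℤ) * (7 : ℝ) ^ (4 : ℤ) =
    2401 / 2400 by norm_num] at a2
  rw [show (2 : ℝ) ^ (-1 : ℤ) * (3 : ℝ) ^ (-7 : ℤ) * (5 : ℝ) ^ (4 : ℤ) * (7 : ℝ) ^ (1 : ℤ) =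
    4375 / 4374 by norm_num] at a3
  have b1 : 1 - (225 / 224 : ℝ)⁻¹ ≤ Real.log (225 / 224) :=
    Real.one_sub_inv_le_log_of_pos (by norm_num)
  have b2 : 1 - (2401 / 2400 : ℝ)⁻¹ ≤ Real.log (2401 / 2400) :=
    Real.one_sub_inv_le_log_of_pos (by norm_num)
  have b3 : 1 - (4375 / 4374 : ℝ)⁻¹ ≤ Real.log (4375 / 4374) :=
    Real.one_sub_inv_le_log_of_pos (by norm_num)
  have c1 : Real.log (225 / 224) ≤ 225 / 224 - 1 := Real.log_le_sub_one_of_pos (by norm_num)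
  have c2 : Real.log (2401 / 2400) ≤ 2401 / 2400 - 1 := Real.log_le_sub_one_of_pos (by norm_num)
  have c3 : Real.log (4375 / 4374) ≤ 4375 / 4374 - 1 := Real.log_le_sub_one_of_pos (by norm_num)
  have d1 := Real.log_two_gt_d9
  have d2 := Real.log_two_lt_d9
  push_cast at a1 a2 a3
  rw [a1] at b1 c1
  rw [a2] at b2 c2
  rw [a3] at b3 c3
  norm_num at b1 b2 b3 c1 c2 c3
  refine ⟨?_, ?_, ?_, ?_, ?_, ?_⟩ <;> linarith

lemma tan_abs {x r c : ℝ} (h : x ≠ r) (hc : 0 < c) :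
    Real.log |x - r| ≤ |x - r| / c - 1 + Real.log c := by
  have hv : 0 < |x - r| := abs_pos.2 (sub_ne_zero.2 h)
  have h := Real.log_le_sub_one_of_pos (div_pos hv hc)
  rw [Real.log_div hv.ne' hc.ne'] at h
  linarith

lemma lg_1_18 : Real.log (1 / 18 : ℝ) = (-1) * Real.log 2 + (-2) * Real.log 3 + (0) * Real.log 5 +
    (0) * Real.log 7 := by
  have h := lg (-1) (-2) (0) (0)
  rw [show (2 : ℝ) ^ (-1 : ℤ) * (3 : ℝ) ^ (-2 : ℤ) * (5 : ℝ) ^ (0 : ℤ) * (7 : ℝ) ^ (0 : ℤ) =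
    (1 / 18 : ℝ) by norm_num] at h
  rw [h]
  push_cast
  ring

lemma lg_1_16 : Real.log (1 / 16 : ℝ) = (-4) * Real.log 2 + (0) * Real.log 3 + (0) * Real.log 5 +
    (0) * Real.log 7 := by
  have h := lg (-4) (0) (0) (0)
  rw [show (2 : ℝ) ^ (-4 : ℤ) * (3 : ℝ) ^ (0 : ℤ) * (5 : ℝ) ^ (0 : ℤ) * (7 : ℝ) ^ (0 : ℤ) =
    (1 / 16 : ℝ) by norm_num] at h
  rw [h]
  push_cast
  ring

lemma lg_1_10 : Real.log (1 / 10 : ℝ) = (-1) * Real.log 2 + (0) * Real.log 3 + (-1) * Real.log 5 +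
    (0) * Real.log 7 := by
  have h := lg (-1) (0) (-1) (0)
  rw [show (2 : ℝ) ^ (-1 : ℤ) * (3 : ℝ) ^ (0 : ℤ) * (5 : ℝ) ^ (-1 : ℤ) * (7 : ℝ) ^ (0 : ℤ) =
    (1 / 10 : ℝ) by norm_num] at h
  rw [h]
  push_cast
  ring

lemma lg_1_8 : Real.log (1 / 8 : ℝ) = (-3) * Real.log 2 + (0) * Real.log 3 + (0) * Real.log 5 +
    (0) * Real.log 7 := by
  have h := lg (-3) (0) (0) (0)
  rw [show (2 : ℝ) ^ (-3 : ℤ) * (3 : ℝ) ^ (0 : ℤ) * (5 : ℝ) ^ (0 : ℤ) * (7 : ℝ) ^ (0 : ℤ) =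
    (1 / 8 : ℝ) by norm_num] at h
  rw [h]
  push_cast
  ring

lemma lg_1_7 : Real.log (1 / 7 : ℝ) = (0) * Real.log 2 + (0) * Real.log 3 + (0) * Real.log 5 +
    (-1) * Real.log 7 := by
  have h := lg (0) (0) (0) (-1)
  rw [show (2 : ℝ) ^ (0 : ℤ) * (3 : ℝ) ^ (0 : ℤ) * (5 : ℝ) ^ (0 : ℤ) * (7 : ℝ) ^ (-1 : ℤ) =
    (1 / 7 : ℝ) by norm_num] at h
  rw [h]
  push_cast
  ring

lemma lg_1_6 : Real.log (1 / 6 : ℝ) = (-1) * Real.log 2 + (-1) * Real.log 3 + (0) * Real.log 5 +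
    (0) * Real.log 7 := by
  have h := lg (-1) (-1) (0) (0)
  rw [show (2 : ℝ) ^ (-1 : ℤ) * (3 : ℝ) ^ (-1 : ℤ) * (5 : ℝ) ^ (0 : ℤ) * (7 : ℝ) ^ (0 : ℤ) =
    (1 / 6 : ℝ) by norm_num] at h
  rw [h]
  push_cast
  ring

lemma lg_5_27 : Real.log (5 / 27 : ℝ) = (0) * Real.log 2 + (-3) * Real.log 3 + (1) * Real.log 5 +
    (0) * Real.log 7 := by
  have h := lg (0) (-3) (1) (0)
  rw [show (2 : ℝ) ^ (0 : ℤ) * (3 : ℝ) ^ (-3 : ℤ) * (5 : ℝ) ^ (1 : ℤ) * (7 : ℝ) ^ (0 : ℤ) =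
    (5 / 27 : ℝ) by norm_num] at h
  rw [h]
  push_cast
  ring

lemma lg_3_16 : Real.log (3 / 16 : ℝ) = (-4) * Real.log 2 + (1) * Real.log 3 + (0) * Real.log 5 +
    (0) * Real.log 7 := by
  have h := lg (-4) (1) (0) (0)
  rw [show (2 : ℝ) ^ (-4 : ℤ) * (3 : ℝ) ^ (1 : ℤ) * (5 : ℝ) ^ (0 : ℤ) * (7 : ℝ) ^ (0 : ℤ) =
    (3 / 16 : ℝ) by norm_num] at h
  rw [h]
  push_cast
  ring

lemma lg_5_21 : Real.log (5 / 21 : ℝ) = (0) * Real.log 2 + (-1) * Real.log 3 + (1) * Real.log 5 +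
    (-1) * Real.log 7 := by
  have h := lg (0) (-1) (1) (-1)
  rw [show (2 : ℝ) ^ (0 : ℤ) * (3 : ℝ) ^ (-1 : ℤ) * (5 : ℝ) ^ (1 : ℤ) * (7 : ℝ) ^ (-1 : ℤ) =
    (5 / 21 : ℝ) by norm_num] at h
  rw [h]
  push_cast
  ring

lemma lg_1_4 : Real.log (1 / 4 : ℝ) = (-2) * Real.log 2 + (0) * Real.log 3 + (0) * Real.log 5 +
    (0) * Real.log 7 := by
  have h := lg (-2) (0) (0) (0)
  rw [show (2 : ℝ) ^ (-2 : ℤ) * (3 : ℝ) ^ (0 : ℤ) * (5 : ℝ) ^ (0 : ℤ) * (7 : ℝ) ^ (0 : ℤ) =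
    (1 / 4 : ℝ) by norm_num] at h
  rw [h]
  push_cast
  ring

lemma lg_4_15 : Real.log (4 / 15 : ℝ) = (2) * Real.log 2 + (-1) * Real.log 3 + (-1) * Real.log 5 +
    (0) * Real.log 7 := by
  have h := lg (2) (-1) (-1) (0)
  rw [show (2 : ℝ) ^ (2 : ℤ) * (3 : ℝ) ^ (-1 : ℤ) * (5 : ℝ) ^ (-1 : ℤ) * (7 : ℝ) ^ (0 : ℤ) =
    (4 / 15 : ℝ) by norm_num] at h
  rw [h]
  push_cast
  ring

lemma lg_5_14 : Real.log (5 / 14 : ℝ) = (-1) * Real.log 2 + (0) * Real.log 3 + (1) * Real.log 5 +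
    (-1) * Real.log 7 := by
  have h := lg (-1) (0) (1) (-1)
  rw [show (2 : ℝ) ^ (-1 : ℤ) * (3 : ℝ) ^ (0 : ℤ) * (5 : ℝ) ^ (1 : ℤ) * (7 : ℝ) ^ (-1 : ℤ) =
    (5 / 14 : ℝ) by norm_num] at h
  rw [h]
  push_cast
  ring

lemma lg_2_5 : Real.log (2 / 5 : ℝ) = (1) * Real.log 2 + (0) * Real.log 3 + (-1) * Real.log 5 +
    (0) * Real.log 7 := by
  have h := lg (1) (0) (-1) (0)
  rw [show (2 : ℝ) ^ (1 : ℤ) * (3 : ℝ) ^ (0 : ℤ) * (5 : ℝ) ^ (-1 : ℤ) * (7 : ℝ) ^ (0 : ℤ) =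
    (2 / 5 : ℝ) by norm_num] at h
  rw [h]
  push_cast
  ring

lemma lg_3_7 : Real.log (3 / 7 : ℝ) = (0) * Real.log 2 + (1) * Real.log 3 + (0) * Real.log 5 +
    (-1) * Real.log 7 := by
  have h := lg (0) (1) (0) (-1)
  rw [show (2 : ℝ) ^ (0 : ℤ) * (3 : ℝ) ^ (1 : ℤ) * (5 : ℝ) ^ (0 : ℤ) * (7 : ℝ) ^ (-1 : ℤ) =
    (3 / 7 : ℝ) by norm_num] at h
  rw [h]
  push_cast
  ring

lemma lg_4_9 : Real.log (4 / 9 : ℝ) = (2) * Real.log 2 + (-2) * Real.log 3 + (0) * Real.log 5 +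
    (0) * Real.log 7 := by
  have h := lg (2) (-2) (0) (0)
  rw [show (2 : ℝ) ^ (2 : ℤ) * (3 : ℝ) ^ (-2 : ℤ) * (5 : ℝ) ^ (0 : ℤ) * (7 : ℝ) ^ (0 : ℤ) =
    (4 / 9 : ℝ) by norm_num] at h
  rw [h]
  push_cast
  ring

lemma lg_1_2 : Real.log (1 / 2 : ℝ) = (-1) * Real.log 2 + (0) * Real.log 3 + (0) * Real.log 5 +
    (0) * Real.log 7 := by
  have h := lg (-1) (0) (0) (0)
  rw [show (2 : ℝ) ^ (-1 : ℤ) * (3 : ℝ) ^ (0 : ℤ) * (5 : ℝ) ^ (0 : ℤ) * (7 : ℝ) ^ (0 : ℤ) =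
    (1 / 2 : ℝ) by norm_num] at h
  rw [h]
  push_cast
  ring

lemma lg_5_9 : Real.log (5 / 9 : ℝ) = (0) * Real.log 2 + (-2) * Real.log 3 + (1) * Real.log 5 +
    (0) * Real.log 7 := by
  have h := lg (0) (-2) (1) (0)
  rw [show (2 : ℝ) ^ (0 : ℤ) * (3 : ℝ) ^ (-2 : ℤ) * (5 : ℝ) ^ (1 : ℤ) * (7 : ℝ) ^ (0 : ℤ) =
    (5 / 9 : ℝ) by norm_num] at h
  rw [h]
  push_cast
  ring

lemma lg_5_8 : Real.log (5 / 8 : ℝ) = (-3) * Real.log 2 + (0) * Real.log 3 + (1) * Real.log 5 +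
    (0) * Real.log 7 := by
  have h := lg (-3) (0) (1) (0)
  rw [show (2 : ℝ) ^ (-3 : ℤ) * (3 : ℝ) ^ (0 : ℤ) * (5 : ℝ) ^ (1 : ℤ) * (7 : ℝ) ^ (0 : ℤ) =
    (5 / 8 : ℝ) by norm_num] at h
  rw [h]
  push_cast
  ring

lemma lg_3_4 : Real.log (3 / 4 : ℝ) = (-2) * Real.log 2 + (1) * Real.log 3 + (0) * Real.log 5 +
    (0) * Real.log 7 := by
  have h := lg (-2) (1) (0) (0)
  rw [show (2 : ℝ) ^ (-2 : ℤ) * (3 : ℝ) ^ (1 : ℤ) * (5 : ℝ) ^ (0 : ℤ) * (7 : ℝ) ^ (0 : ℤ) =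
    (3 / 4 : ℝ) by norm_num] at h
  rw [h]
  push_cast
  ring

lemma lg_4_5 : Real.log (4 / 5 : ℝ) = (2) * Real.log 2 + (0) * Real.log 3 + (-1) * Real.log 5 +
    (0) * Real.log 7 := by
  have h := lg (2) (0) (-1) (0)
  rw [show (2 : ℝ) ^ (2 : ℤ) * (3 : ℝ) ^ (0 : ℤ) * (5 : ℝ) ^ (-1 : ℤ) * (7 : ℝ) ^ (0 : ℤ) =
    (4 / 5 : ℝ) by norm_num] at h
  rw [h]
  push_cast
  ring

lemma lg_5_6 : Real.log (5 / 6 : ℝ) = (-1) * Real.log 2 + (-1) * Real.log 3 + (1) * Real.log 5 +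
    (0) * Real.log 7 := by
  have h := lg (-1) (-1) (1) (0)
  rw [show (2 : ℝ) ^ (-1 : ℤ) * (3 : ℝ) ^ (-1 : ℤ) * (5 : ℝ) ^ (1 : ℤ) * (7 : ℝ) ^ (0 : ℤ) =
    (5 / 6 : ℝ) by norm_num] at h
  rw [h]
  push_cast
  ring

lemma lg_15_14 : Real.log (15 / 14 : ℝ) = (-1) * Real.log 2 + (1) * Real.log 3 + (1) * Real.log 5 +
    (-1) * Real.log 7 := by
  have h := lg (-1) (1) (1) (-1)
  rw [show (2 : ℝ) ^ (-1 : ℤ) * (3 : ℝ) ^ (1 : ℤ) * (5 : ℝ) ^ (1 : ℤ) * (7 : ℝ) ^ (-1 : ℤ) =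
    (15 / 14 : ℝ) by norm_num] at h
  rw [h]
  push_cast
  ring

lemma lg_10_9 : Real.log (10 / 9 : ℝ) = (1) * Real.log 2 + (-2) * Real.log 3 + (1) * Real.log 5 +
    (0) * Real.log 7 := by
  have h := lg (1) (-2) (1) (0)
  rw [show (2 : ℝ) ^ (1 : ℤ) * (3 : ℝ) ^ (-2 : ℤ) * (5 : ℝ) ^ (1 : ℤ) * (7 : ℝ) ^ (0 : ℤ) =
    (10 / 9 : ℝ) by norm_num] at h
  rw [h]
  push_cast
  ring

lemma lg_8_7 : Real.log (8 / 7 : ℝ) = (3) * Real.log 2 + (0) * Real.log 3 + (0) * Real.log 5 +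
    (-1) * Real.log 7 := by
  have h := lg (3) (0) (0) (-1)
  rw [show (2 : ℝ) ^ (3 : ℤ) * (3 : ℝ) ^ (0 : ℤ) * (5 : ℝ) ^ (0 : ℤ) * (7 : ℝ) ^ (-1 : ℤ) =
    (8 / 7 : ℝ) by norm_num] at h
  rw [h]
  push_cast
  ring

lemma lg_6_5 : Real.log (6 / 5 : ℝ) = (1) * Real.log 2 + (1) * Real.log 3 + (-1) * Real.log 5 +
    (0) * Real.log 7 := by
  have h := lg (1) (1) (-1) (0)
  rw [show (2 : ℝ) ^ (1 : ℤ) * (3 : ℝ) ^ (1 : ℤ) * (5 : ℝ) ^ (-1 : ℤ) * (7 : ℝ) ^ (0 : ℤ) =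
    (6 / 5 : ℝ) by norm_num] at h
  rw [h]
  push_cast
  ring

lemma lg_5_4 : Real.log (5 / 4 : ℝ) = (-2) * Real.log 2 + (0) * Real.log 3 + (1) * Real.log 5 +
    (0) * Real.log 7 := by
  have h := lg (-2) (0) (1) (0)
  rw [show (2 : ℝ) ^ (-2 : ℤ) * (3 : ℝ) ^ (0 : ℤ) * (5 : ℝ) ^ (1 : ℤ) * (7 : ℝ) ^ (0 : ℤ) =
    (5 / 4 : ℝ) by norm_num] at h
  rw [h]
  push_cast
  ring

lemma lg_4_3 : Real.log (4 / 3 : ℝ) = (2) * Real.log 2 + (-1) * Real.log 3 + (0) * Real.log 5 +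
    (0) * Real.log 7 := by
  have h := lg (2) (-1) (0) (0)
  rw [show (2 : ℝ) ^ (2 : ℤ) * (3 : ℝ) ^ (-1 : ℤ) * (5 : ℝ) ^ (0 : ℤ) * (7 : ℝ) ^ (0 : ℤ) =
    (4 / 3 : ℝ) by norm_num] at h
  rw [h]
  push_cast
  ring

lemma lg_7_5 : Real.log (7 / 5 : ℝ) = (0) * Real.log 2 + (0) * Real.log 3 + (-1) * Real.log 5 +
    (1) * Real.log 7 := by
  have h := lg (0) (0) (-1) (1)
  rw [show (2 : ℝ) ^ (0 : ℤ) * (3 : ℝ) ^ (0 : ℤ) * (5 : ℝ) ^ (-1 : ℤ) * (7 : ℝ) ^ (1 : ℤ) =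
    (7 / 5 : ℝ) by norm_num] at h
  rw [h]
  push_cast
  ring

lemma lg_3_2 : Real.log (3 / 2 : ℝ) = (-1) * Real.log 2 + (1) * Real.log 3 + (0) * Real.log 5 +
    (0) * Real.log 7 := by
  have h := lg (-1) (1) (0) (0)
  rw [show (2 : ℝ) ^ (-1 : ℤ) * (3 : ℝ) ^ (1 : ℤ) * (5 : ℝ) ^ (0 : ℤ) * (7 : ℝ) ^ (0 : ℤ) =
    (3 / 2 : ℝ) by norm_num] at h
  rw [h]
  push_cast
  ring

lemma lg_5_3 : Real.log (5 / 3 : ℝ) = (0) * Real.log 2 + (-1) * Real.log 3 + (1) * Real.log 5 +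
    (0) * Real.log 7 := by
  have h := lg (0) (-1) (1) (0)
  rw [show (2 : ℝ) ^ (0 : ℤ) * (3 : ℝ) ^ (-1 : ℤ) * (5 : ℝ) ^ (1 : ℤ) * (7 : ℝ) ^ (0 : ℤ) =
    (5 / 3 : ℝ) by norm_num] at h
  rw [h]
  push_cast
  ring

lemma lg_7_4 : Real.log (7 / 4 : ℝ) = (-2) * Real.log 2 + (0) * Real.log 3 + (0) * Real.log 5 +
    (1) * Real.log 7 := by
  have h := lg (-2) (0) (0) (1)
  rw [show (2 : ℝ) ^ (-2 : ℤ) * (3 : ℝ) ^ (0 : ℤ) * (5 : ℝ) ^ (0 : ℤ) * (7 : ℝ) ^ (1 : ℤ) =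
    (7 / 4 : ℝ) by norm_num] at h
  rw [h]
  push_cast
  ring

lemma lg_9_5 : Real.log (9 / 5 : ℝ) = (0) * Real.log 2 + (2) * Real.log 3 + (-1) * Real.log 5 +
    (0) * Real.log 7 := by
  have h := lg (0) (2) (-1) (0)
  rw [show (2 : ℝ) ^ (0 : ℤ) * (3 : ℝ) ^ (2 : ℤ) * (5 : ℝ) ^ (-1 : ℤ) * (7 : ℝ) ^ (0 : ℤ) =
    (9 / 5 : ℝ) by norm_num] at h
  rw [h]
  push_cast
  ring

lemma lg_2_1 : Real.log (2 : ℝ) = (1) * Real.log 2 + (0) * Real.log 3 + (0) * Real.log 5 +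
    (0) * Real.log 7 := by
  have h := lg (1) (0) (0) (0)
  rw [show (2 : ℝ) ^ (1 : ℤ) * (3 : ℝ) ^ (0 : ℤ) * (5 : ℝ) ^ (0 : ℤ) * (7 : ℝ) ^ (0 : ℤ) =
    (2 : ℝ) by norm_num] at h
  rw [h]
  push_cast
  ring

lemma lg_9_4 : Real.log (9 / 4 : ℝ) = (-2) * Real.log 2 + (2) * Real.log 3 + (0) * Real.log 5 +
    (0) * Real.log 7 := by
  have h := lg (-2) (2) (0) (0)
  rw [show (2 : ℝ) ^ (-2 : ℤ) * (3 : ℝ) ^ (2 : ℤ) * (5 : ℝ) ^ (0 : ℤ) * (7 : ℝ) ^ (0 : ℤ) =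
    (9 / 4 : ℝ) by norm_num] at h
  rw [h]
  push_cast
  ring

lemma lg_7_3 : Real.log (7 / 3 : ℝ) = (0) * Real.log 2 + (-1) * Real.log 3 + (0) * Real.log 5 +
    (1) * Real.log 7 := by
  have h := lg (0) (-1) (0) (1)
  rw [show (2 : ℝ) ^ (0 : ℤ) * (3 : ℝ) ^ (-1 : ℤ) * (5 : ℝ) ^ (0 : ℤ) * (7 : ℝ) ^ (1 : ℤ) =
    (7 / 3 : ℝ) by norm_num] at h
  rw [h]
  push_cast
  ring

lemma lg_5_2 : Real.log (5 / 2 : ℝ) = (-1) * Real.log 2 + (0) * Real.log 3 + (1) * Real.log 5 +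
    (0) * Real.log 7 := by
  have h := lg (-1) (0) (1) (0)
  rw [show (2 : ℝ) ^ (-1 : ℤ) * (3 : ℝ) ^ (0 : ℤ) * (5 : ℝ) ^ (1 : ℤ) * (7 : ℝ) ^ (0 : ℤ) =
    (5 / 2 : ℝ) by norm_num] at h
  rw [h]
  push_cast
  ring

lemma lg_8_3 : Real.log (8 / 3 : ℝ) = (3) * Real.log 2 + (-1) * Real.log 3 + (0) * Real.log 5 +
    (0) * Real.log 7 := by
  have h := lg (3) (-1) (0) (0)
  rw [show (2 : ℝ) ^ (3 : ℤ) * (3 : ℝ) ^ (-1 : ℤ) * (5 : ℝ) ^ (0 : ℤ) * (7 : ℝ) ^ (0 : ℤ) =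
    (8 / 3 : ℝ) by norm_num] at h
  rw [h]
  push_cast
  ring

lemma lg_14_5 : Real.log (14 / 5 : ℝ) = (1) * Real.log 2 + (0) * Real.log 3 + (-1) * Real.log 5 +
    (1) * Real.log 7 := by
  have h := lg (1) (0) (-1) (1)
  rw [show (2 : ℝ) ^ (1 : ℤ) * (3 : ℝ) ^ (0 : ℤ) * (5 : ℝ) ^ (-1 : ℤ) * (7 : ℝ) ^ (1 : ℤ) =
    (14 / 5 : ℝ) by norm_num] at h
  rw [h]
  push_cast
  ring

lemma lg_3_1 : Real.log (3 : ℝ) = (0) * Real.log 2 + (1) * Real.log 3 + (0) * Real.log 5 +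
    (0) * Real.log 7 := by
  have h := lg (0) (1) (0) (0)
  rw [show (2 : ℝ) ^ (0 : ℤ) * (3 : ℝ) ^ (1 : ℤ) * (5 : ℝ) ^ (0 : ℤ) * (7 : ℝ) ^ (0 : ℤ) =
    (3 : ℝ) by norm_num] at h
  rw [h]
  push_cast
  ring

lemma lg_10_3 : Real.log (10 / 3 : ℝ) = (1) * Real.log 2 + (-1) * Real.log 3 + (1) * Real.log 5 +
    (0) * Real.log 7 := by
  have h := lg (1) (-1) (1) (0)
  rw [show (2 : ℝ) ^ (1 : ℤ) * (3 : ℝ) ^ (-1 : ℤ) * (5 : ℝ) ^ (1 : ℤ) * (7 : ℝ) ^ (0 : ℤ) =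
    (10 / 3 : ℝ) by norm_num] at h
  rw [h]
  push_cast
  ring

lemma lg_7_2 : Real.log (7 / 2 : ℝ) = (-1) * Real.log 2 + (0) * Real.log 3 + (0) * Real.log 5 +
    (1) * Real.log 7 := by
  have h := lg (-1) (0) (0) (1)
  rw [show (2 : ℝ) ^ (-1 : ℤ) * (3 : ℝ) ^ (0 : ℤ) * (5 : ℝ) ^ (0 : ℤ) * (7 : ℝ) ^ (1 : ℤ) =
    (7 / 2 : ℝ) by norm_num] at h
  rw [h]
  push_cast
  ring

lemma lg_4_1 : Real.log (4 : ℝ) = (2) * Real.log 2 + (0) * Real.log 3 + (0) * Real.log 5 +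
    (0) * Real.log 7 := by
  have h := lg (2) (0) (0) (0)
  rw [show (2 : ℝ) ^ (2 : ℤ) * (3 : ℝ) ^ (0 : ℤ) * (5 : ℝ) ^ (0 : ℤ) * (7 : ℝ) ^ (0 : ℤ) =
    (4 : ℝ) by norm_num] at h
  rw [h]
  push_cast
  ring

/-- The auxiliary inequality, in terms of the roots. -/
lemma aux8 {y r1 r2 r3 g1 g2 : ℝ} (b1 : 0.198 < r1) (b1' : r1 < 0.1981) (b2 : 1.5549 < r2)
    (b2' : r2 < 1.555) (b3 : 3.2469 < r3) (b3' : r3 < 3.247) (c1 : 0.3819 < g1) (c1' : g1 < 0.382)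
    (c2 : 2.618 < g2) (c2' : g2 < 2.6181) (h0 : 0 < y) (n1 : y ≠ r1) (n2 : y ≠ g1) (n3 : y ≠ 1)
    (n4 : y ≠ r2) (n5 : y ≠ 2) (n6 : y ≠ g2) (n7 : y ≠ r3) :
    5 / 3 ≤ y - 13 / 20 * Real.log y - 7 / 10 * Real.log |y - 1| - 9 / 40 * (Real.log |y - g1| +
      Real.log |y - g2|) - 3 / 40 * Real.log |y - 2| - 9 / 100 * (Real.log |y - r1| +
      Real.log |y - r2| + Real.log |y - r3|) := by
  have l2 := Real.log_two_gt_d9
  have l2' := Real.log_two_lt_d9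
  obtain ⟨l3, l3', l5, l5', l7, l7'⟩ := log_bounds
  have hy : Real.log y = Real.log |y - 0| := by rw [sub_zero, abs_of_pos h0]
  rw [hy]
  rcases lt_or_gt_of_ne n1 with k1 | k1
  · have e0 := tan_abs (x := y) (r := 0) (c := (1 / 7 : ℝ)) h0.ne' (by norm_num)
    have e1 := tan_abs (x := y) (r := r1) (c := (1 / 18 : ℝ)) n1 (by norm_num)
    have e2 := tan_abs (x := y) (r := g1) (c := (5 / 21 : ℝ)) n2 (by norm_num)
    have e3 := tan_abs (x := y) (r := 1) (c := (5 / 6 : ℝ)) n3 (by norm_num)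
    have e4 := tan_abs (x := y) (r := r2) (c := (7 / 5 : ℝ)) n4 (by norm_num)
    have e5 := tan_abs (x := y) (r := 2) (c := (9 / 5 : ℝ)) n5 (by norm_num)
    have e6 := tan_abs (x := y) (r := g2) (c := (5 / 2 : ℝ)) n6 (by norm_num)
    have e7 := tan_abs (x := y) (r := r3) (c := (3 : ℝ)) n7 (by norm_num)
    rw [abs_of_pos (show 0 < y - 0 by linarith)] at e0
    rw [abs_of_neg (show y - r1 < 0 by linarith)] at e1
    rw [abs_of_neg (show y - g1 < 0 by linarith)] at e2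
    rw [abs_of_neg (show y - 1 < 0 by linarith)] at e3
    rw [abs_of_neg (show y - r2 < 0 by linarith)] at e4
    rw [abs_of_neg (show y - 2 < 0 by linarith)] at e5
    rw [abs_of_neg (show y - g2 < 0 by linarith)] at e6
    rw [abs_of_neg (show y - r3 < 0 by linarith)] at e7
    rw [lg_1_7] at e0
    rw [lg_1_18] at e1
    rw [lg_5_21] at e2
    rw [lg_5_6] at e3
    rw [lg_7_5] at e4
    rw [lg_9_5] at e5
    rw [lg_5_2] at e6
    rw [lg_3_1] at e7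
    rw [abs_of_pos (show 0 < y - 0 by linarith)]
    rw [abs_of_neg (show y - r1 < 0 by linarith)]
    rw [abs_of_neg (show y - g1 < 0 by linarith)]
    rw [abs_of_neg (show y - 1 < 0 by linarith)]
    rw [abs_of_neg (show y - r2 < 0 by linarith)]
    rw [abs_of_neg (show y - 2 < 0 by linarith)]
    rw [abs_of_neg (show y - g2 < 0 by linarith)]
    rw [abs_of_neg (show y - r3 < 0 by linarith)]
    linarith
  rcases lt_or_gt_of_ne n2 with k2 | k2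
  · have e0 := tan_abs (x := y) (r := 0) (c := (1 / 4 : ℝ)) h0.ne' (by norm_num)
    have e1 := tan_abs (x := y) (r := r1) (c := (1 / 16 : ℝ)) n1 (by norm_num)
    have e2 := tan_abs (x := y) (r := g1) (c := (1 / 8 : ℝ)) n2 (by norm_num)
    have e3 := tan_abs (x := y) (r := 1) (c := (3 / 4 : ℝ)) n3 (by norm_num)
    have e4 := tan_abs (x := y) (r := r2) (c := (4 / 3 : ℝ)) n4 (by norm_num)
    have e5 := tan_abs (x := y) (r := 2) (c := (7 / 4 : ℝ)) n5 (by norm_num)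
    have e6 := tan_abs (x := y) (r := g2) (c := (7 / 3 : ℝ)) n6 (by norm_num)
    have e7 := tan_abs (x := y) (r := r3) (c := (3 : ℝ)) n7 (by norm_num)
    rw [abs_of_pos (show 0 < y - 0 by linarith)] at e0
    rw [abs_of_pos (show 0 < y - r1 by linarith)] at e1
    rw [abs_of_neg (show y - g1 < 0 by linarith)] at e2
    rw [abs_of_neg (show y - 1 < 0 by linarith)] at e3
    rw [abs_of_neg (show y - r2 < 0 by linarith)] at e4
    rw [abs_of_neg (show y - 2 < 0 by linarith)] at e5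
    rw [abs_of_neg (show y - g2 < 0 by linarith)] at e6
    rw [abs_of_neg (show y - r3 < 0 by linarith)] at e7
    rw [lg_1_4] at e0
    rw [lg_1_16] at e1
    rw [lg_1_8] at e2
    rw [lg_3_4] at e3
    rw [lg_4_3] at e4
    rw [lg_7_4] at e5
    rw [lg_7_3] at e6
    rw [lg_3_1] at e7
    rw [abs_of_pos (show 0 < y - 0 by linarith)]
    rw [abs_of_pos (show 0 < y - r1 by linarith)]
    rw [abs_of_neg (show y - g1 < 0 by linarith)]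
    rw [abs_of_neg (show y - 1 < 0 by linarith)]
    rw [abs_of_neg (show y - r2 < 0 by linarith)]
    rw [abs_of_neg (show y - 2 < 0 by linarith)]
    rw [abs_of_neg (show y - g2 < 0 by linarith)]
    rw [abs_of_neg (show y - r3 < 0 by linarith)]
    linarith
  rcases lt_or_gt_of_ne n3 with k3 | k3
  · have e0 := tan_abs (x := y) (r := 0) (c := (5 / 9 : ℝ)) h0.ne' (by norm_num)
    have e1 := tan_abs (x := y) (r := r1) (c := (5 / 14 : ℝ)) n1 (by norm_num)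
    have e2 := tan_abs (x := y) (r := g1) (c := (1 / 6 : ℝ)) n2 (by norm_num)
    have e3 := tan_abs (x := y) (r := 1) (c := (4 / 9 : ℝ)) n3 (by norm_num)
    have e4 := tan_abs (x := y) (r := r2) (c := (1 : ℝ)) n4 (by norm_num)
    have e5 := tan_abs (x := y) (r := 2) (c := (3 / 2 : ℝ)) n5 (by norm_num)
    have e6 := tan_abs (x := y) (r := g2) (c := (2 : ℝ)) n6 (by norm_num)
    have e7 := tan_abs (x := y) (r := r3) (c := (8 / 3 : ℝ)) n7 (by norm_num)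
    rw [abs_of_pos (show 0 < y - 0 by linarith)] at e0
    rw [abs_of_pos (show 0 < y - r1 by linarith)] at e1
    rw [abs_of_pos (show 0 < y - g1 by linarith)] at e2
    rw [abs_of_neg (show y - 1 < 0 by linarith)] at e3
    rw [abs_of_neg (show y - r2 < 0 by linarith)] at e4
    rw [abs_of_neg (show y - 2 < 0 by linarith)] at e5
    rw [abs_of_neg (show y - g2 < 0 by linarith)] at e6
    rw [abs_of_neg (show y - r3 < 0 by linarith)] at e7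
    rw [lg_5_9] at e0
    rw [lg_5_14] at e1
    rw [lg_1_6] at e2
    rw [lg_4_9] at e3
    rw [Real.log_one] at e4
    rw [lg_3_2] at e5
    rw [lg_2_1] at e6
    rw [lg_8_3] at e7
    rw [abs_of_pos (show 0 < y - 0 by linarith)]
    rw [abs_of_pos (show 0 < y - r1 by linarith)]
    rw [abs_of_pos (show 0 < y - g1 by linarith)]
    rw [abs_of_neg (show y - 1 < 0 by linarith)]
    rw [abs_of_neg (show y - r2 < 0 by linarith)]
    rw [abs_of_neg (show y - 2 < 0 by linarith)]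
    rw [abs_of_neg (show y - g2 < 0 by linarith)]
    rw [abs_of_neg (show y - r3 < 0 by linarith)]
    linarith
  rcases lt_or_gt_of_ne n4 with k4 | k4
  · have e0 := tan_abs (x := y) (r := 0) (c := (3 / 2 : ℝ)) h0.ne' (by norm_num)
    have e1 := tan_abs (x := y) (r := r1) (c := (5 / 4 : ℝ)) n1 (by norm_num)
    have e2 := tan_abs (x := y) (r := g1) (c := (10 / 9 : ℝ)) n2 (by norm_num)
    have e3 := tan_abs (x := y) (r := 1) (c := (4 / 9 : ℝ)) n3 (by norm_num)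
    have e4 := tan_abs (x := y) (r := r2) (c := (1 / 10 : ℝ)) n4 (by norm_num)
    have e5 := tan_abs (x := y) (r := 2) (c := (5 / 9 : ℝ)) n5 (by norm_num)
    have e6 := tan_abs (x := y) (r := g2) (c := (6 / 5 : ℝ)) n6 (by norm_num)
    have e7 := tan_abs (x := y) (r := r3) (c := (7 / 4 : ℝ)) n7 (by norm_num)
    rw [abs_of_pos (show 0 < y - 0 by linarith)] at e0
    rw [abs_of_pos (show 0 < y - r1 by linarith)] at e1
    rw [abs_of_pos (show 0 < y - g1 by linarith)] at e2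
    rw [abs_of_pos (show 0 < y - 1 by linarith)] at e3
    rw [abs_of_neg (show y - r2 < 0 by linarith)] at e4
    rw [abs_of_neg (show y - 2 < 0 by linarith)] at e5
    rw [abs_of_neg (show y - g2 < 0 by linarith)] at e6
    rw [abs_of_neg (show y - r3 < 0 by linarith)] at e7
    rw [lg_3_2] at e0
    rw [lg_5_4] at e1
    rw [lg_10_9] at e2
    rw [lg_4_9] at e3
    rw [lg_1_10] at e4
    rw [lg_5_9] at e5
    rw [lg_6_5] at e6
    rw [lg_7_4] at e7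
    rw [abs_of_pos (show 0 < y - 0 by linarith)]
    rw [abs_of_pos (show 0 < y - r1 by linarith)]
    rw [abs_of_pos (show 0 < y - g1 by linarith)]
    rw [abs_of_pos (show 0 < y - 1 by linarith)]
    rw [abs_of_neg (show y - r2 < 0 by linarith)]
    rw [abs_of_neg (show y - 2 < 0 by linarith)]
    rw [abs_of_neg (show y - g2 < 0 by linarith)]
    rw [abs_of_neg (show y - r3 < 0 by linarith)]
    linarith
  rcases lt_or_gt_of_ne n5 with k5 | k5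
  · have e0 := tan_abs (x := y) (r := 0) (c := (7 / 4 : ℝ)) h0.ne' (by norm_num)
    have e1 := tan_abs (x := y) (r := r1) (c := (5 / 3 : ℝ)) n1 (by norm_num)
    have e2 := tan_abs (x := y) (r := g1) (c := (7 / 5 : ℝ)) n2 (by norm_num)
    have e3 := tan_abs (x := y) (r := 1) (c := (4 / 5 : ℝ)) n3 (by norm_num)
    have e4 := tan_abs (x := y) (r := r2) (c := (4 / 15 : ℝ)) n4 (by norm_num)
    have e5 := tan_abs (x := y) (r := 2) (c := (5 / 27 : ℝ)) n5 (by norm_num)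
    have e6 := tan_abs (x := y) (r := g2) (c := (4 / 5 : ℝ)) n6 (by norm_num)
    have e7 := tan_abs (x := y) (r := r3) (c := (7 / 5 : ℝ)) n7 (by norm_num)
    rw [abs_of_pos (show 0 < y - 0 by linarith)] at e0
    rw [abs_of_pos (show 0 < y - r1 by linarith)] at e1
    rw [abs_of_pos (show 0 < y - g1 by linarith)] at e2
    rw [abs_of_pos (show 0 < y - 1 by linarith)] at e3
    rw [abs_of_pos (show 0 < y - r2 by linarith)] at e4
    rw [abs_of_neg (show y - 2 < 0 by linarith)] at e5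
    rw [abs_of_neg (show y - g2 < 0 by linarith)] at e6
    rw [abs_of_neg (show y - r3 < 0 by linarith)] at e7
    rw [lg_7_4] at e0
    rw [lg_5_3] at e1
    rw [lg_7_5] at e2
    rw [lg_4_5] at e3
    rw [lg_4_15] at e4
    rw [lg_5_27] at e5
    rw [lg_4_5] at e6
    rw [lg_7_5] at e7
    rw [abs_of_pos (show 0 < y - 0 by linarith)]
    rw [abs_of_pos (show 0 < y - r1 by linarith)]
    rw [abs_of_pos (show 0 < y - g1 by linarith)]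
    rw [abs_of_pos (show 0 < y - 1 by linarith)]
    rw [abs_of_pos (show 0 < y - r2 by linarith)]
    rw [abs_of_neg (show y - 2 < 0 by linarith)]
    rw [abs_of_neg (show y - g2 < 0 by linarith)]
    rw [abs_of_neg (show y - r3 < 0 by linarith)]
    linarith
  rcases lt_or_gt_of_ne n6 with k6 | k6
  · have e0 := tan_abs (x := y) (r := 0) (c := (9 / 4 : ℝ)) h0.ne' (by norm_num)
    have e1 := tan_abs (x := y) (r := r1) (c := (2 : ℝ)) n1 (by norm_num)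
    have e2 := tan_abs (x := y) (r := g1) (c := (7 / 4 : ℝ)) n2 (by norm_num)
    have e3 := tan_abs (x := y) (r := 1) (c := (6 / 5 : ℝ)) n3 (by norm_num)
    have e4 := tan_abs (x := y) (r := r2) (c := (5 / 8 : ℝ)) n4 (by norm_num)
    have e5 := tan_abs (x := y) (r := 2) (c := (3 / 16 : ℝ)) n5 (by norm_num)
    have e6 := tan_abs (x := y) (r := g2) (c := (3 / 7 : ℝ)) n6 (by norm_num)
    have e7 := tan_abs (x := y) (r := r3) (c := (15 / 14 : ℝ)) n7 (by norm_num)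
    rw [abs_of_pos (show 0 < y - 0 by linarith)] at e0
    rw [abs_of_pos (show 0 < y - r1 by linarith)] at e1
    rw [abs_of_pos (show 0 < y - g1 by linarith)] at e2
    rw [abs_of_pos (show 0 < y - 1 by linarith)] at e3
    rw [abs_of_pos (show 0 < y - r2 by linarith)] at e4
    rw [abs_of_pos (show 0 < y - 2 by linarith)] at e5
    rw [abs_of_neg (show y - g2 < 0 by linarith)] at e6
    rw [abs_of_neg (show y - r3 < 0 by linarith)] at e7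
    rw [lg_9_4] at e0
    rw [lg_2_1] at e1
    rw [lg_7_4] at e2
    rw [lg_6_5] at e3
    rw [lg_5_8] at e4
    rw [lg_3_16] at e5
    rw [lg_3_7] at e6
    rw [lg_15_14] at e7
    rw [abs_of_pos (show 0 < y - 0 by linarith)]
    rw [abs_of_pos (show 0 < y - r1 by linarith)]
    rw [abs_of_pos (show 0 < y - g1 by linarith)]
    rw [abs_of_pos (show 0 < y - 1 by linarith)]
    rw [abs_of_pos (show 0 < y - r2 by linarith)]
    rw [abs_of_pos (show 0 < y - 2 by linarith)]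
    rw [abs_of_neg (show y - g2 < 0 by linarith)]
    rw [abs_of_neg (show y - r3 < 0 by linarith)]
    linarith
  rcases lt_or_gt_of_ne n7 with k7 | k7
  · have e0 := tan_abs (x := y) (r := 0) (c := (3 : ℝ)) h0.ne' (by norm_num)
    have e1 := tan_abs (x := y) (r := r1) (c := (14 / 5 : ℝ)) n1 (by norm_num)
    have e2 := tan_abs (x := y) (r := g1) (c := (8 / 3 : ℝ)) n2 (by norm_num)
    have e3 := tan_abs (x := y) (r := 1) (c := (2 : ℝ)) n3 (by norm_num)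
    have e4 := tan_abs (x := y) (r := r2) (c := (3 / 2 : ℝ)) n4 (by norm_num)
    have e5 := tan_abs (x := y) (r := 2) (c := (1 : ℝ)) n5 (by norm_num)
    have e6 := tan_abs (x := y) (r := g2) (c := (2 / 5 : ℝ)) n6 (by norm_num)
    have e7 := tan_abs (x := y) (r := r3) (c := (5 / 21 : ℝ)) n7 (by norm_num)
    rw [abs_of_pos (show 0 < y - 0 by linarith)] at e0
    rw [abs_of_pos (show 0 < y - r1 by linarith)] at e1
    rw [abs_of_pos (show 0 < y - g1 by linarith)] at e2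
    rw [abs_of_pos (show 0 < y - 1 by linarith)] at e3
    rw [abs_of_pos (show 0 < y - r2 by linarith)] at e4
    rw [abs_of_pos (show 0 < y - 2 by linarith)] at e5
    rw [abs_of_pos (show 0 < y - g2 by linarith)] at e6
    rw [abs_of_neg (show y - r3 < 0 by linarith)] at e7
    rw [lg_3_1] at e0
    rw [lg_14_5] at e1
    rw [lg_8_3] at e2
    rw [lg_2_1] at e3
    rw [lg_3_2] at e4
    rw [Real.log_one] at e5
    rw [lg_2_5] at e6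
    rw [lg_5_21] at e7
    rw [abs_of_pos (show 0 < y - 0 by linarith)]
    rw [abs_of_pos (show 0 < y - r1 by linarith)]
    rw [abs_of_pos (show 0 < y - g1 by linarith)]
    rw [abs_of_pos (show 0 < y - 1 by linarith)]
    rw [abs_of_pos (show 0 < y - r2 by linarith)]
    rw [abs_of_pos (show 0 < y - 2 by linarith)]
    rw [abs_of_pos (show 0 < y - g2 by linarith)]
    rw [abs_of_neg (show y - r3 < 0 by linarith)]
    linarith
  have e0 := tan_abs (x := y) (r := 0) (c := (4 : ℝ)) h0.ne' (by norm_num)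
  have e1 := tan_abs (x := y) (r := r1) (c := (7 / 2 : ℝ)) n1 (by norm_num)
  have e2 := tan_abs (x := y) (r := g1) (c := (10 / 3 : ℝ)) n2 (by norm_num)
  have e3 := tan_abs (x := y) (r := 1) (c := (8 / 3 : ℝ)) n3 (by norm_num)
  have e4 := tan_abs (x := y) (r := r2) (c := (9 / 4 : ℝ)) n4 (by norm_num)
  have e5 := tan_abs (x := y) (r := 2) (c := (7 / 4 : ℝ)) n5 (by norm_num)
  have e6 := tan_abs (x := y) (r := g2) (c := (8 / 7 : ℝ)) n6 (by norm_num)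
  have e7 := tan_abs (x := y) (r := r3) (c := (1 / 2 : ℝ)) n7 (by norm_num)
  rw [abs_of_pos (show 0 < y - 0 by linarith)] at e0
  rw [abs_of_pos (show 0 < y - r1 by linarith)] at e1
  rw [abs_of_pos (show 0 < y - g1 by linarith)] at e2
  rw [abs_of_pos (show 0 < y - 1 by linarith)] at e3
  rw [abs_of_pos (show 0 < y - r2 by linarith)] at e4
  rw [abs_of_pos (show 0 < y - 2 by linarith)] at e5
  rw [abs_of_pos (show 0 < y - g2 by linarith)] at e6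
  rw [abs_of_pos (show 0 < y - r3 by linarith)] at e7
  rw [lg_4_1] at e0
  rw [lg_7_2] at e1
  rw [lg_10_3] at e2
  rw [lg_8_3] at e3
  rw [lg_9_4] at e4
  rw [lg_7_4] at e5
  rw [lg_8_7] at e6
  rw [lg_1_2] at e7
  rw [abs_of_pos (show 0 < y - 0 by linarith)]
  rw [abs_of_pos (show 0 < y - r1 by linarith)]
  rw [abs_of_pos (show 0 < y - g1 by linarith)]
  rw [abs_of_pos (show 0 < y - 1 by linarith)]
  rw [abs_of_pos (show 0 < y - r2 by linarith)]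
  rw [abs_of_pos (show 0 < y - 2 by linarith)]
  rw [abs_of_pos (show 0 < y - g2 by linarith)]
  rw [abs_of_pos (show 0 < y - r3 by linarith)]
  linarith

end Pool.Agent.Fin74
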