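import Pool.Agent.W_7742c_h74.Siegel
import Pool.Agent.W_7742q_h74.QAux

set_option autoImplicit false

/-!
# The trace of totally positive algebraic integers is at least `5 / 3` times the degree
-/

noncomputable section

namespace Pool.Agent.Fin74

open Pool.Agent.H74E Polynomial

/-- The roots of the cubic `x ^ 3 - 5 x ^ 2 + 6 x - 1`. -/
lemma exists_roots : ∃ r1 r2 r3 : ℝ, 0.198 < r1 ∧ r1 < 0.1981 ∧ 1.5549 < r2 ∧ r2 < 1.555 ∧
    3.2469 < r3 ∧ r3 < 3.247 ∧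
    ∀ x : ℝ, x ^ 3 - 5 * x ^ 2 + 6 * x - 1 = (x - r1) * (x - r2) * (x - r3) := by
  have hc : Continuous fun x : ℝ => x ^ 3 - 5 * x ^ 2 + 6 * x - 1 := by fun_prop
  have key : ∀ a b : ℝ, a ≤ b → a ^ 3 - 5 * a ^ 2 + 6 * a - 1 < 0 →
      0 < b ^ 3 - 5 * b ^ 2 + 6 * b - 1 →
      ∃ r, a < r ∧ r < b ∧ r ^ 3 - 5 * r ^ 2 + 6 * r - 1 = 0 := by
    intro a b hab h1 h2
    obtain ⟨r, hr, h⟩ := intermediate_value_Icc hab hc.continuousOn ⟨h1.le, h2.le⟩
    simp only at h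
    refine ⟨r, lt_of_le_of_ne hr.1 ?_, lt_of_le_of_ne hr.2 ?_, h⟩
    · rintro rfl
      linarith
    · rintro rfl
      linarith
  have key' : ∀ a b : ℝ, a ≤ b → 0 < a ^ 3 - 5 * a ^ 2 + 6 * a - 1 →
      b ^ 3 - 5 * b ^ 2 + 6 * b - 1 < 0 →
      ∃ r, a < r ∧ r < b ∧ r ^ 3 - 5 * r ^ 2 + 6 * r - 1 = 0 := by
    intro a b hab h1 h2
    obtain ⟨r, hr, h⟩ := intermediate_value_Icc' hab hc.continuousOn ⟨h2.le, h1.le⟩
    simp only at h
    refine ⟨r, lt_of_le_of_ne hr.1 ?_, lt_of_le_of_ne hr.2 ?_, h⟩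
    · rintro rfl
      linarith
    · rintro rfl
      linarith
  obtain ⟨r1, a1, a1', e1⟩ := key 0.198 0.1981 (by norm_num) (by norm_num) (by norm_num)
  obtain ⟨r2, a2, a2', e2⟩ := key' 1.5549 1.555 (by norm_num) (by norm_num) (by norm_num)
  obtain ⟨r3, a3, a3', e3⟩ := key 3.2469 3.247 (by norm_num) (by norm_num) (by norm_num)
  refine ⟨r1, r2, r3, a1, a1', a2, a2', a3, a3', ?_⟩
  have h12 : r2 - r1 ≠ 0 := by
    intro h
    norm_num at a1' a2
    linarith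
  have h13 : r3 - r1 ≠ 0 := by
    intro h
    norm_num at a1' a3
    linarith
  have h23 : r3 - r2 ≠ 0 := by
    intro h
    norm_num at a2' a3
    linarith
  have f1 : r1 ^ 2 + r1 * r2 + r2 ^ 2 - 5 * (r1 + r2) + 6 = 0 := by
    have : (r2 - r1) * (r1 ^ 2 + r1 * r2 + r2 ^ 2 - 5 * (r1 + r2) + 6) = 0 := by
      linear_combination e2 - e1
    exact (mul_eq_zero.1 this).resolve_left h12
  have f2 : r1 ^ 2 + r1 * r3 + r3 ^ 2 - 5 * (r1 + r3) + 6 = 0 := by
    have : (r3 - r1) * (r1 ^ 2 + r1 * r3 + r3 ^ 2 - 5 * (r1 + r3) + 6) = 0 := by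
      linear_combination e3 - e1
    exact (mul_eq_zero.1 this).resolve_left h13
  have f3 : r1 + r2 + r3 - 5 = 0 := by
    have : (r3 - r2) * (r1 + r2 + r3 - 5) = 0 := by
      linear_combination f2 - f1
    exact (mul_eq_zero.1 this).resolve_left h23
  have g1 : r1 + r2 + r3 = 5 := by linarith
  have g3 : r3 = 5 - r1 - r2 := by linarith
  have g2 : r1 * r2 + r1 * r3 + r2 * r3 = 6 := by
    rw [g3]
    linear_combination -f1
  have g4 : r1 * r2 * r3 = 1 := by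
    have : r1 * r2 * r3 = r1 ^ 3 - 5 * r1 ^ 2 + 6 * r1 := by
      rw [g3]
      linear_combination r1 * (-f1)
    linarith
  intro x
  linear_combination x ^ 2 * g1 - x * g2 + g4

lemma siegel_aux2 {y : ℝ} (h0 : 0 < y) (h1 : y ≠ 1) (h2 : y ≠ 2) (h3 : y ^ 2 - 3 * y + 1 ≠ 0)
    (h4 : y ^ 3 - 5 * y ^ 2 + 6 * y - 1 ≠ 0) :
    5 / 3 ≤ y - 13 / 20 * Real.log y - 7 / 10 * Real.log |y - 1| -
      9 / 40 * Real.log |y ^ 2 - 3 * y + 1| - 3 / 40 * Real.log |y - 2| -
      9 / 100 * Real.log |y ^ 3 - 5 * y ^ 2 + 6 * y - 1| := by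
  obtain ⟨r1, r2, r3, a1, a1', a2, a2', a3, a3', hf⟩ := exists_roots
  obtain ⟨s1, s2⟩ := s5_bounds
  have s5 : √5 ^ 2 = 5 := Real.sq_sqrt (by norm_num)
  have hg : y ^ 2 - 3 * y + 1 = (y - (3 - √5) / 2) * (y - (3 + √5) / 2) := by nlinarith
  rw [hf y] at h4
  rw [hg] at h3
  have n1 : y - r1 ≠ 0 := left_ne_zero_of_mul (left_ne_zero_of_mul h4)
  have n2 : y - r2 ≠ 0 := right_ne_zero_of_mul (left_ne_zero_of_mul h4)
  have n3 : y - r3 ≠ 0 := right_ne_zero_of_mul h4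
  have m1 : y - (3 - √5) / 2 ≠ 0 := left_ne_zero_of_mul h3
  have m2 : y - (3 + √5) / 2 ≠ 0 := right_ne_zero_of_mul h3
  rw [hf y, hg, abs_mul, abs_mul, abs_mul, Real.log_mul (abs_ne_zero.2 m1) (abs_ne_zero.2 m2),
    Real.log_mul (mul_ne_zero (abs_ne_zero.2 n1) (abs_ne_zero.2 n2)) (abs_ne_zero.2 n3),
    Real.log_mul (abs_ne_zero.2 n1) (abs_ne_zero.2 n2)]
  have := aux8 a1 a1' a2 a2' a3 a3' (g1 := (3 - √5) / 2) (g2 := (3 + √5) / 2)
    (by norm_num; linarith) (by norm_num; linarith) (by norm_num; linarith)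
    (by norm_num; linarith) h0 (sub_ne_zero.1 n1)
    (sub_ne_zero.1 m1) h1 (sub_ne_zero.1 n2) h2 (sub_ne_zero.1 m2) (sub_ne_zero.1 n3)
  linarith

section field

variable {K : Type} [Field K] [NumberField K]

/-- The trace of a root of the cubic. -/
lemma trace_cubic {y : K} (hy : y ^ 3 - 5 * y ^ 2 + 6 * y - 1 = 0) :
    ∑ σ : K →+* ℂ, σ y = 5 / 3 * (Fintype.card (K →+* ℂ) : ℂ) := by
  set P : ℚ[X] := X ^ 3 - C 5 * X ^ 2 + C 6 * X - C 1 with hP
  have hdeg : P.natDegree = 3 := by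
    rw [hP]
    compute_degree!
  have hmon : P.Monic := by
    rw [hP]
    monicity!
  have hirr : Irreducible P := by
    refine (Polynomial.irreducible_iff_roots_eq_zero_of_degree_le_three (by rw [hdeg]; norm_num)
      (by rw [hdeg])).2 ?_
    rw [Multiset.eq_zero_iff_forall_notMem]
    intro r hr
    have h1 : IsRoot P r := (Polynomial.mem_roots hmon.ne_zero).1 hr
    have h2 : r ^ 3 - 5 * r ^ 2 + 6 * r - 1 = 0 := by
      have := h1
      rw [hP] at this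
      simpa [Polynomial.IsRoot] using this
    have h3 : IsIntegral ℤ r := by
      refine ⟨X ^ 3 - C 5 * X ^ 2 + C 6 * X - C 1, by monicity!, ?_⟩
      simpa using h2
    obtain ⟨m, rfl⟩ := IsIntegrallyClosed.isIntegral_iff.1 h3
    have h4 : m * (m ^ 2 - 5 * m + 6) = 1 := by
      have h5 : ((m * (m ^ 2 - 5 * m + 6) : ℤ) : ℚ) = 1 := by
        simp only [eq_intCast] at h2
        push_cast
        linarith
      exact_mod_cast h5
    rcases Int.isUnit_iff.1 (IsUnit.of_mul_eq_one _ h4) with h | h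
    · rw [h] at h4
      norm_num at h4
    · rw [h] at h4
      norm_num at h4
  have hroot : aeval y P = 0 := by
    rw [hP]
    simpa using hy
  have hmin : minpoly ℚ y = P := (minpoly.eq_of_irreducible_of_monic hirr hroot hmon).symm
  have hnext : P.nextCoeff = -5 := by
    rw [Polynomial.nextCoeff_of_natDegree_pos (by rw [hdeg]; norm_num), hdeg, hP]
    simp [Polynomial.coeff_X, Polynomial.coeff_C, Polynomial.coeff_X_pow, Polynomial.coeff_one]
  have htr := trace_eq_finrank_mul_minpoly_nextCoeff ℚ (L := K) y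
  rw [hmin, hnext, neg_neg] at htr
  have hy' : IsIntegral ℚ y := ⟨P, hmon, by simpa [aeval_def] using hroot⟩
  have hfr : Module.finrank ℚ (IntermediateField.adjoin ℚ {y}) = 3 := by
    rw [IntermediateField.adjoin.finrank hy', hmin, hdeg]
  have hmul := Module.finrank_mul_finrank ℚ (IntermediateField.adjoin ℚ {y}) K
  rw [hfr] at hmul
  have h1 := trace_eq_sum_embeddings (K := ℚ) (L := K) ℂ (x := y)
  rw [htr] at h1
  have h2 : ∑ σ : K →+* ℂ, σ y = ∑ σ : K →ₐ[ℚ] ℂ, σ y :=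
    Fintype.sum_equiv (RingHom.equivRatAlgHom K ℂ) _ _ fun σ => rfl
  rw [h2, ← h1, NumberField.Embeddings.card K ℂ, ← hmul]
  push_cast
  simp
  ring

/-- The trace of a totally nonnegative algebraic integer different from `0`, `1` and the squares of
`(1 ± √5) / 2` is at least `5 / 3` times the degree. -/
lemma siegel2 {y : K} (hy : IsIntegral ℤ y) (h0 : y ≠ 0) (h1 : y ≠ 1) (h2 : y ^ 2 - 3 * y + 1 ≠ 0)
    {r : (K →+* ℂ) → ℝ} (hr : ∀ σ, σ y = (r σ : ℂ)) (hpos : ∀ σ, 0 ≤ r σ) :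
    5 / 3 * (Fintype.card (K →+* ℂ) : ℝ) ≤ ∑ σ : K →+* ℂ, r σ := by
  have hne : ∀ σ, r σ ≠ 0 := by
    intro σ h
    have := hr σ
    rw [h, Complex.ofReal_zero, map_eq_zero] at this
    exact h0 this
  have hpos' : ∀ σ, 0 < r σ := fun σ => lt_of_le_of_ne (hpos σ) (hne σ).symm
  by_cases h4 : y ^ 3 - 5 * y ^ 2 + 6 * y - 1 = 0
  · have h5 := trace_cubic h4
    have h6 : ((∑ σ : K →+* ℂ, r σ : ℝ) : ℂ) = ((5 / 3 * (Fintype.card (K →+* ℂ) : ℝ) : ℝ) : ℂ) := by
      push_cast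
      rw [← h5]
      exact Finset.sum_congr rfl fun σ _ => (hr σ).symm
    exact (Complex.ofReal_inj.1 h6).ge
  by_cases h3 : y = 2
  · have h5 : ∀ σ, r σ = 2 := by
      intro σ
      have := hr σ
      rw [h3, map_ofNat] at this
      exact_mod_cast this.symm
    simp only [h5]
    rw [Finset.sum_const, Finset.card_univ, nsmul_eq_mul]
    have : (0 : ℝ) ≤ (Fintype.card (K →+* ℂ) : ℝ) := by positivity
    linarith
  have l0 := sum_log_nonneg' hy h0 (r := r) (fun σ => by rw [hr σ, Complex.norm_real]; rfl)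
  have hone : ∀ σ, r σ ≠ 1 := by
    intro σ h
    have := hr σ
    rw [h, Complex.ofReal_one] at this
    exact h1 (σ.injective (by rw [this, map_one]))
  have htwo : ∀ σ, r σ ≠ 2 := by
    intro σ h
    have := hr σ
    rw [h] at this
    exact h3 (σ.injective (by rw [this, map_ofNat]; norm_num))
  have hgold : ∀ σ, r σ ^ 2 - 3 * r σ + 1 ≠ 0 := by
    intro σ h
    apply h2
    apply σ.injective
    rw [map_add, map_sub, map_mul, map_pow, map_one, map_ofNat, map_zero, hr σ]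
    exact_mod_cast h
  have hcub : ∀ σ, r σ ^ 3 - 5 * r σ ^ 2 + 6 * r σ - 1 ≠ 0 := by
    intro σ h
    apply h4
    apply σ.injective
    rw [map_sub, map_add, map_sub, map_mul, map_mul, map_pow, map_pow, map_one, map_ofNat,
      map_ofNat, map_zero, hr σ]
    exact_mod_cast h
  have hI : ∀ m : ℤ, IsIntegral ℤ (m : K) := by
    intro m
    have := isIntegral_algebraMap (R := ℤ) (A := K) (x := m)
    simpa using this
  have l1 := sum_log_nonneg' (hy.sub isIntegral_one) (sub_ne_zero.2 h1) (r := fun σ => r σ - 1)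
    (fun σ => by
      rw [map_sub, map_one, hr σ, show ((r σ : ℂ) - 1) = ((r σ - 1 : ℝ) : ℂ) by push_cast; rfl,
        Complex.norm_real]; rfl)
  have l3 := sum_log_nonneg' (hy.sub (by simpa using hI 2)) (sub_ne_zero.2 h3)
    (r := fun σ => r σ - 2)
    (fun σ => by
      rw [map_sub, map_ofNat, hr σ, show ((r σ : ℂ) - 2) = ((r σ - 2 : ℝ) : ℂ) by push_cast; rfl,
        Complex.norm_real]; rfl)
  have l2 := sum_log_nonneg' (((hy.pow 2).sub ((by simpa using hI 3 : IsIntegral ℤ (3 : K)).mul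
    hy)).add isIntegral_one) h2
    (r := fun σ => r σ ^ 2 - 3 * r σ + 1) (fun σ => by
      rw [map_add, map_sub, map_mul, map_pow, map_one, map_ofNat, hr σ,
        show ((r σ : ℂ) ^ 2 - 3 * (r σ : ℂ) + 1) = ((r σ ^ 2 - 3 * r σ + 1 : ℝ) : ℂ) by
          push_cast; rfl, Complex.norm_real]; rfl)
  have l4 := sum_log_nonneg' ((((hy.pow 3).sub ((by simpa using hI 5 : IsIntegral ℤ (5 : K)).mul
    (hy.pow 2))).add ((by simpa using hI 6 : IsIntegral ℤ (6 : K)).mul hy)).sub isIntegral_one) h4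
    (r := fun σ => r σ ^ 3 - 5 * r σ ^ 2 + 6 * r σ - 1) (fun σ => by
      rw [map_sub, map_add, map_sub, map_mul, map_mul, map_pow, map_pow, map_one, map_ofNat,
        map_ofNat, hr σ,
        show ((r σ : ℂ) ^ 3 - 5 * (r σ : ℂ) ^ 2 + 6 * (r σ : ℂ) - 1) =
          ((r σ ^ 3 - 5 * r σ ^ 2 + 6 * r σ - 1 : ℝ) : ℂ) by
          push_cast; rfl, Complex.norm_real]; rfl)
  have hsum : ∑ _σ : K →+* ℂ, (5 / 3 : ℝ) ≤ ∑ σ : K →+* ℂ, (r σ - 13 / 20 * Real.log (r σ) -
      7 / 10 * Real.log |r σ - 1| - 9 / 40 * Real.log |r σ ^ 2 - 3 * r σ + 1| -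
      3 / 40 * Real.log |r σ - 2| - 9 / 100 * Real.log |r σ ^ 3 - 5 * r σ ^ 2 + 6 * r σ - 1|) :=
    Finset.sum_le_sum fun σ _ => siegel_aux2 (hpos' σ) (hone σ) (htwo σ) (hgold σ) (hcub σ)
  rw [Finset.sum_const, Finset.card_univ, nsmul_eq_mul, Finset.sum_sub_distrib,
    Finset.sum_sub_distrib, Finset.sum_sub_distrib, Finset.sum_sub_distrib,
    Finset.sum_sub_distrib, ← Finset.mul_sum, ← Finset.mul_sum,
    ← Finset.mul_sum, ← Finset.mul_sum, ← Finset.mul_sum] at hsum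
  have l0' : 0 ≤ ∑ σ : K →+* ℂ, Real.log (r σ) := by
    simpa only [Real.log_abs] using l0
  linarith

end field

end Pool.Agent.Fin74
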