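import Pool.Agent.W_7742v_h74.Thr
import Pool.Agent.W_7742q_h74.QSie

set_option autoImplicit false

/-!
# Weighted sums over the primes
-/

noncomputable section

namespace Pool.Agent.H74V

open Filter Topology ComplexConjugate Pool.Agent.Maass74
open Pool.Agent.H74E (pk pk_nonneg pk_eq)

namespace SatakeSystem

variable {K : Type} [Field K] [NumberField K] {n : ℕ} (π : SatakeSystem K n)

/-- The logarithm of the Rankin-Selberg function of a bounded conjugate. -/
theorem T_sum_le {σ : K →+* ℂ} (h : π.IsBounded σ) :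
    (∀ s : ℝ, 1 < s → Summable fun q => π.T σ q * pk s q) ∧
    ∃ B : ℝ, ∀ s : ℝ, 1 < s → s ≤ 2 → ∑' q, π.T σ q * pk s q ≤ -Real.log (s - 1) + B := by
  obtain ⟨-, hconv, C, hC⟩ := h
  have hTs : ∀ s : ℝ, 1 < s → Summable fun q => π.T σ q * pk s q := fun s hs =>
    (hconv s hs).congr fun q => coeff_pk π σ s q
  refine ⟨hTs, Real.log (|C| + 1), fun s hs hs2 => ?_⟩
  have hpos : 0 < s - 1 := by linarith
  have h2 := hC s hs hs2
  rw [L_real] at h2
  have h3 : Real.exp (∑' q, π.T σ q * pk s q) ≤ (|C| + 1) / (s - 1) := by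
    rw [le_div_iff₀ hpos, mul_comm]
    linarith [le_abs_self C]
  have h4 := Real.log_le_log (Real.exp_pos _) h3
  rw [Real.log_exp, Real.log_div (by positivity) hpos.ne'] at h4
  linarith

/-- The sum over the primes. -/
theorem prime_sum_le {σ : K →+* ℂ} (h : π.IsBounded σ) {s : ℝ} (hs : 1 < s) :
    Summable (fun p : Nat.Primes => π.T σ (p, 0) * ((p : ℕ) : ℝ) ^ (-s)) ∧
    ∑' p : Nat.Primes, π.T σ (p, 0) * ((p : ℕ) : ℝ) ^ (-s) ≤ ∑' q, π.T σ q * pk s q := by
  have h1 := (π.T_sum_le h).1 s hs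
  have hinj : Function.Injective (fun p : Nat.Primes => ((p, 0) : Nat.Primes × ℕ)) :=
    fun p q hpq => (Prod.mk.inj hpq).1
  have h2 : ∀ p : Nat.Primes, π.T σ (p, 0) * ((p : ℕ) : ℝ) ^ (-s) =
      π.T σ (p, 0) * pk s (p, 0) := by
    intro p
    rw [pk_eq]
    simp
  have h3 : Summable (fun p : Nat.Primes => π.T σ (p, 0) * pk s (p, 0)) :=
    h1.comp_injective hinj
  refine ⟨h3.congr fun p => (h2 p).symm, ?_⟩
  rw [tsum_congr h2]
  exact h3.tsum_le_tsum_of_inj _ hinj (fun q _ => mul_nonneg (T_nonneg π σ q) (pk_nonneg s q))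
    (fun p => le_rfl) h1

/-- A weight function on the primes which is at most the mean of the `‖σ (tr A p)‖ ^ 2` has mean at
most one. -/
theorem weighted (h : ∀ σ, π.IsBounded σ) (w : ℕ → ℝ) (hw0 : ∀ p, 0 ≤ w p)
    (hw : ∀ p, π.Good p → w p * (Fintype.card (K →+* ℂ) : ℝ) ≤
      ∑ σ : K →+* ℂ, ‖σ (π.A p).trace‖ ^ 2)
    (hwb : ∀ p, ¬ π.Good p → w p = 0) :
    (∀ s : ℝ, 1 < s → Summable fun p : Nat.Primes => w p * ((p : ℕ) : ℝ) ^ (-s)) ∧
    ∀ ε : ℝ, 0 < ε → ∀ᶠ s in 𝓝[>] (1 : ℝ),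
      ∑' p : Nat.Primes, w p * ((p : ℕ) : ℝ) ^ (-s) ≤ (1 + ε) * primeSum (fun _ => True) s := by
  classical
  set d : ℝ := (Fintype.card (K →+* ℂ) : ℝ) with hd
  have hdpos : 0 < d := by
    have σ0 : K →+* ℂ := Classical.choice inferInstance
    have : 0 < Fintype.card (K →+* ℂ) := Fintype.card_pos_iff.2 ⟨σ0⟩
    rw [hd]
    exact_mod_cast this
  have hT : ∀ (σ : K →+* ℂ) (p : Nat.Primes), π.Good p → π.T σ (p, 0) = ‖σ (π.A p).trace‖ ^ 2 := by
    intro σ p hg
    unfold T coeff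
    simp [hg]
  have hpt : ∀ p : Nat.Primes, w p * d ≤ ∑ σ : K →+* ℂ, π.T σ (p, 0) := by
    intro p
    by_cases hg : π.Good p
    · rw [Finset.sum_congr rfl fun σ _ => hT σ p hg]
      exact hw p hg
    · rw [hwb p hg, zero_mul]
      exact Finset.sum_nonneg fun σ _ => T_nonneg π σ _
  have hsum : ∀ s : ℝ, 1 < s → Summable fun p : Nat.Primes =>
      (∑ σ : K →+* ℂ, π.T σ (p, 0)) * ((p : ℕ) : ℝ) ^ (-s) := by
    intro s hs
    simp only [Finset.sum_mul]
    exact summable_sum fun σ _ => (π.prime_sum_le (h σ) hs).1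
  have hws : ∀ s : ℝ, 1 < s → Summable fun p : Nat.Primes => w p * ((p : ℕ) : ℝ) ^ (-s) := by
    intro s hs
    refine Summable.of_nonneg_of_le (fun p => mul_nonneg (hw0 p) (by positivity)) (fun p => ?_)
      ((hsum s hs).mul_left d⁻¹)
    rw [← mul_assoc]
    refine mul_le_mul_of_nonneg_right ?_ (by positivity)
    rw [inv_mul_eq_div, le_div_iff₀ hdpos]
    exact hpt p
  refine ⟨hws, fun ε hε => ?_⟩
  choose B hB using fun σ => (π.T_sum_le (h σ)).2
  set BB : ℝ := ∑ σ : K →+* ℂ, B σ with hBB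
  obtain ⟨C0, hC0⟩ := neg_log_le_primes
  have hlt2 : ∀ᶠ s in 𝓝[>] (1 : ℝ), s < 2 :=
    (eventually_lt_nhds (by norm_num : (1 : ℝ) < 2)).filter_mono nhdsWithin_le_nhds
  filter_upwards [hC0, tendsto_neg_log.eventually_ge_atTop ((d * C0 + BB) / (d * ε) + C0), hlt2,
    self_mem_nhdsWithin] with s h2 h3 h4 h5
  have hs : (1 : ℝ) < s := h5
  set P : ℝ := ∑' p : Nat.Primes, ((p : ℕ) : ℝ) ^ (-s) with hP
  have hall1 : primeSum (fun _ => True) s = P := by
    have e1 : primeSum (fun _ => True) s = H74E.SatakeSystem.primeSum (fun _ => True) s := rfl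
    rw [e1, H74E.SatakeSystem.primeSum_eq, hP]
    exact tsum_congr fun p => by
      rw [H74E.SatakeSystem.ind_pos (P := fun _ => True) trivial, one_mul]
  have h6 : d * ∑' p : Nat.Primes, w p * ((p : ℕ) : ℝ) ^ (-s) ≤ -(d * Real.log (s - 1)) + BB := by
    rw [← tsum_mul_left]
    calc ∑' p : Nat.Primes, d * (w p * ((p : ℕ) : ℝ) ^ (-s))
        ≤ ∑' p : Nat.Primes, (∑ σ : K →+* ℂ, π.T σ (p, 0)) * ((p : ℕ) : ℝ) ^ (-s) := by
          refine ((hws s hs).mul_left d).tsum_le_tsum (fun p => ?_) (hsum s hs)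
          rw [← mul_assoc, mul_comm d]
          exact mul_le_mul_of_nonneg_right (hpt p) (by positivity)
      _ = ∑ σ : K →+* ℂ, ∑' p : Nat.Primes, π.T σ (p, 0) * ((p : ℕ) : ℝ) ^ (-s) := by
          simp only [Finset.sum_mul]
          exact Summable.tsum_finsetSum fun σ _ => (π.prime_sum_le (h σ) hs).1
      _ ≤ ∑ σ : K →+* ℂ, (-Real.log (s - 1) + B σ) :=
          Finset.sum_le_sum fun σ _ => (π.prime_sum_le (h σ) hs).2.trans (hB σ s hs h4.le)
      _ = _ := by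
          rw [Finset.sum_add_distrib, Finset.sum_const, Finset.card_univ, nsmul_eq_mul, ← hd]
          ring
  rw [hall1]
  have h9 : d * -Real.log (s - 1) ≤ d * (P + C0) := mul_le_mul_of_nonneg_left h2 hdpos.le
  have h11 : d * C0 + BB ≤ d * ε * P := by
    have h12 : (d * C0 + BB) / (d * ε) ≤ P := by linarith
    have := mul_le_mul_of_nonneg_left h12 (by positivity : 0 ≤ d * ε)
    rwa [mul_div_cancel₀ _ (by positivity : d * ε ≠ 0)] at this
  have h13 : d * ∑' p : Nat.Primes, w p * ((p : ℕ) : ℝ) ^ (-s) ≤ d * ((1 + ε) * P) := by linarith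
  exact le_of_mul_le_mul_left h13 hdpos

end SatakeSystem

end Pool.Agent.H74V
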