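import Pool.Agent.W_7742q_h74.QMan
import Pool.Agent.W_7742w_h74.Fam

set_option autoImplicit false

/-!
# Satake classes of finite order
-/

noncomputable section

namespace Pool.Agent.H74V

open Filter Topology ComplexConjugate Pool.Agent.Maass74 Pool.Agent.Fin74
open Pool.Agent.H74E (pk pk_nonneg pk_eq)

namespace SatakeSystem

variable {K : Type} [Field K] [NumberField K] {n : ℕ} (π : SatakeSystem K n)

/-- The relations between the coefficients of the characteristic polynomials. -/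
theorem coeff_rel (hn : 2 ≤ n) {σ : K →+* ℂ} (h : π.IsCuspidal σ) {p : ℕ} (hp : π.Good p) :
    ∃ ξ : ℂ, ‖ξ‖ = 1 ∧ (-1) ^ n * σ ((π.A p).charpoly.coeff 0) = ξ ∧
      ∀ k : ℕ, 1 ≤ k → k < n → (-1) ^ k * σ ((π.A p).charpoly.coeff (n - k)) =
        ξ * conj ((-1) ^ (n - k) * σ ((π.A p).charpoly.coeff (n - (n - k)))) := by
  obtain ⟨s, rfl⟩ : ∃ s, n = s + 2 := ⟨n - 2, by omega⟩
  obtain ⟨χ, f, hf, hne, he⟩ := h
  obtain ⟨h1, h2⟩ := GL74.adj_rel π.level_pos hf hne hp.1 hp.2
    (fun k => (-1) ^ k * ((π.A p).charpoly.map σ).coeff (s + 2 - k)) (he p hp.1 hp.2)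
  refine ⟨conj (χ p), ?_, ?_, fun k hk1 hk2 => ?_⟩
  · have hu : IsUnit ((p : ℕ) : ZMod π.level) := (ZMod.isUnit_iff_coprime p _).2
      ((Nat.Prime.coprime_iff_not_dvd hp.1).2 hp.2)
    obtain ⟨u, hu⟩ := hu
    rw [← hu, Complex.norm_conj]
    exact DirichletCharacter.unit_norm_eq_one χ u
  · simpa using h1
  · have := h2 k hk1 hk2
    simpa using this

/-- The determinant is a root of unity. -/
theorem det_root (hn : 2 ≤ n) (h : ∀ σ, π.IsCuspidal σ) {p : ℕ} (hp : π.Good p) :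
    ∃ m : ℕ, 0 < m ∧ ((π.A p).charpoly.coeff 0) ^ m = 1 := by
  obtain ⟨m, hm, h1⟩ := NumberField.Embeddings.pow_eq_one_of_norm_eq_one K ℂ
    (π.integral p hp.1 hp.2 0) (fun σ => by
      obtain ⟨ξ, h1, h2, -⟩ := π.coeff_rel hn (h σ) hp
      have h3 := congrArg norm h2
      rw [norm_mul, norm_pow, norm_neg, norm_one, one_pow, one_mul, h1] at h3
      exact h3)
  exact ⟨m, hm, h1⟩

lemma root_eq {P : Polynomial K} (hP : P.Monic) {N : ℕ} (hd : P.natDegree = N) (σ : K →+* ℂ) {z : ℂ}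
    (hz : (P.map σ).IsRoot z) : ∑ i ∈ Finset.range N, σ (P.coeff i) * z ^ i + z ^ N = 0 := by
  have h1 : (P.map σ).eval z = 0 := hz
  rw [Polynomial.eval_eq_sum_range, Polynomial.natDegree_map, hd, Finset.sum_range_succ] at h1
  simp only [Polynomial.coeff_map] at h1
  have h2 : P.coeff N = 1 := by rw [← hd]; exact hP
  rw [h2, map_one, one_mul] at h1
  exact h1

/-- The case `n = 2`. -/
theorem finite_two {π : SatakeSystem K 2} (h : ∀ σ, π.IsCuspidal σ) {p : ℕ} (hp : π.Good p)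
    (hc : (π.A p).trace = 0 ∨ (∃ k : ℕ, 0 < k ∧ (π.A p).trace ^ k = 1) ∨
      ∃ (k : ℕ) (u x : K), 0 < k ∧ u ^ k = 1 ∧ x ^ 2 = x + 1 ∧ (π.A p).trace = u * x) :
    π.FiniteOrder p := by
  have hmon := (π.A p).charpoly_monic
  have hdeg : (π.A p).charpoly.natDegree = 2 := by
    rw [Matrix.charpoly_natDegree_eq_dim, Fintype.card_fin]
  have htr : (π.A p).trace = -(π.A p).charpoly.coeff 1 := by
    rw [Matrix.trace_eq_neg_charpoly_coeff, Fintype.card_fin]
  obtain ⟨m, hm, hdet⟩ := π.det_root le_rfl h hp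
  set c1 := (π.A p).charpoly.coeff 1 with hc1
  set c0 := (π.A p).charpoly.coeff 0 with hc0
  have hroot : ∀ (σ : K →+* ℂ) (z : ℂ), ((π.A p).charpoly.map σ).IsRoot z →
      z ^ 2 + σ c1 * z + σ c0 = 0 := by
    intro σ z hz
    have := root_eq hmon hdeg σ hz
    rw [Finset.sum_range_succ, Finset.sum_range_succ, Finset.sum_range_zero, pow_zero, pow_one,
      mul_one, zero_add, ← hc0, ← hc1] at this
    linear_combination this
  have hrel : ∀ σ : K →+* ℂ, σ c1 = σ c0 * conj (σ c1) := by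
    intro σ
    obtain ⟨ξ, h1, h2, h3⟩ := π.coeff_rel le_rfl (h σ) hp
    have h4 := h3 1 le_rfl one_lt_two
    simp only [Nat.add_one_sub_one, pow_one, neg_mul, one_mul, map_neg] at h4
    rw [← hc1] at h4
    rw [← hc0] at h2
    have h5 : σ c0 = ξ := by rw [← h2]; norm_num
    have h6 : -σ c1 = ξ * -conj (σ c1) := by
      simpa using h4
    rw [h5]
    linear_combination -h6
  have hσ0 : ∀ σ : K →+* ℂ, σ c0 ^ m = 1 := fun σ => by rw [← map_pow, hdet, map_one]
  have hsq : ∀ σ : K →+* ℂ, σ c1 ^ 2 = σ c0 * ((‖σ c1‖ ^ 2 : ℝ) : ℂ) := by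
    intro σ
    have e : ((‖σ c1‖ ^ 2 : ℝ) : ℂ) = σ c1 * conj (σ c1) := by
      rw [Complex.mul_conj, Complex.normSq_eq_norm_sq]
    rw [e]
    linear_combination σ c1 * hrel σ
  rcases hc with h0 | ⟨k, hk, h1⟩ | ⟨k, u, x, hk, hu, hx, hux⟩
  · refine ⟨4 * m, by positivity, fun σ z hz => ?_⟩
    have h1 := hroot σ z hz
    have h2 : c1 = 0 := by rw [htr] at h0; exact neg_eq_zero.1 h0
    rw [h2, map_zero, zero_mul, add_zero] at h1
    have h3 : z ^ 2 = -σ c0 := by linear_combination h1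
    have h4 : z ^ (4 * m) = ((z ^ 2) ^ 2) ^ m := by rw [← pow_mul, ← pow_mul]; ring_nf
    rw [h4, h3, neg_sq, ← pow_mul, mul_comm 2 m, pow_mul, hσ0, one_pow]
  · refine ⟨6 * k, by positivity, fun σ z hz => ?_⟩
    have e1 := hroot σ z hz
    have hs1 : σ (π.A p).trace ^ k = 1 := by rw [← map_pow, h1, map_one]
    have hn1 : ‖σ c1‖ = 1 := by
      have h5 : ‖σ (π.A p).trace‖ ^ k = 1 := by rw [← norm_pow, hs1, norm_one]
      have h6 := (pow_eq_one_iff_of_nonneg (norm_nonneg _) hk.ne').1 h5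
      rwa [htr, map_neg, norm_neg] at h6
    have e2 := hsq σ
    rw [hn1] at e2
    norm_num at e2
    -- `z ^ 2 + c z + c ^ 2 = 0`
    rw [← e2] at e1
    have e3 : z ^ 3 = σ c1 ^ 3 := by linear_combination (z - σ c1) * e1
    have e4 : σ c1 = -σ (π.A p).trace := by rw [htr, map_neg, neg_neg]
    have e5 : z ^ (6 * k) = ((z ^ 3) ^ 2) ^ k := by rw [← pow_mul, ← pow_mul]; ring_nf
    rw [e5, e3, e4]
    have e6 : (((-σ (π.A p).trace) ^ 3) ^ 2) ^ k = (σ (π.A p).trace ^ k) ^ 6 := by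
      rw [← pow_mul, ← pow_mul, ← pow_mul, show 3 * (2 * k) = 2 * (3 * k) by ring, pow_mul, neg_sq,
        ← pow_mul]
      ring_nf
    rw [e6, hs1, one_pow]
  · refine ⟨10 * k, by positivity, fun σ z hz => ?_⟩
    have e1 := hroot σ z hz
    have hsu : σ u ^ k = 1 := by rw [← map_pow, hu, map_one]
    have hu0 : σ u ≠ 0 := by
      intro h
      rw [h, zero_pow hk.ne'] at hsu
      exact zero_ne_one hsu
    have hnu : ‖σ u‖ = 1 := by
      have h5 : ‖σ u‖ ^ k = 1 := by rw [← norm_pow, hsu, norm_one]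
      exact (pow_eq_one_iff_of_nonneg (norm_nonneg _) hk.ne').1 h5
    have hxs : σ x ^ 2 = σ x + 1 := by rw [← map_pow, hx, map_add, map_one]
    have hx0 : σ x ≠ 0 := by
      intro h
      rw [h] at hxs
      norm_num at hxs
    -- `σ x` is real
    have hxr : conj (σ x) = σ x := by
      have h5 : conj (σ x) ^ 2 = conj (σ x) + 1 := by
        rw [← map_pow, hxs, map_add, map_one]
      have h6 : (conj (σ x) - σ x) * (conj (σ x) + σ x - 1) = 0 := by
        linear_combination h5 - hxs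
      rcases mul_eq_zero.1 h6 with h7 | h7
      · exact sub_eq_zero.1 h7
      · exfalso
        have h8 : conj (σ x) = 1 - σ x := by linear_combination h7
        have h9 : σ x * conj (σ x) = -1 := by rw [h8]; linear_combination -hxs
        rw [Complex.mul_conj] at h9
        have h10 : (Complex.normSq (σ x) : ℝ) = -1 := by exact_mod_cast h9
        have h11 := Complex.normSq_nonneg (σ x)
        linarith
    have e4 : σ c1 = -(σ u * σ x) := by
      rw [← map_mul, ← hux, htr, map_neg, neg_neg]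
    have hcc : ((‖σ c1‖ ^ 2 : ℝ) : ℂ) = σ x ^ 2 := by
      have h5 : ((‖σ c1‖ ^ 2 : ℝ) : ℂ) = σ c1 * conj (σ c1) := by
        rw [Complex.mul_conj, Complex.normSq_eq_norm_sq]
      have h6 : σ u * conj (σ u) = 1 := by
        rw [Complex.mul_conj, Complex.normSq_eq_norm_sq, hnu]
        norm_num
      rw [h5, e4, map_neg, map_mul, hxr]
      linear_combination σ x ^ 2 * h6
    have e2 := hsq σ
    rw [hcc, e4] at e2
    have e3 : σ c0 = σ u ^ 2 := by
      have h5 : σ x ^ 2 * (σ c0 - σ u ^ 2) = 0 := by linear_combination -e2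
      rcases mul_eq_zero.1 h5 with h6 | h6
      · exact absurd h6 (pow_ne_zero 2 hx0)
      · exact sub_eq_zero.1 h6
    rw [e4, e3] at e1
    -- `z ^ 2 - u x z + u ^ 2 = 0`
    have e7 : z ^ 5 = -σ u ^ 5 := by
      have h5 : z ^ 4 - σ u * z ^ 3 + σ u ^ 2 * z ^ 2 - σ u ^ 3 * z + σ u ^ 4 = 0 := by
        have h6 : (z ^ 2 + σ u ^ 2) ^ 2 - σ u * z * (z ^ 2 + σ u ^ 2) - σ u ^ 2 * z ^ 2 = 0 := by
          linear_combination (z ^ 2 + σ u ^ 2 + σ u * σ x * z - σ u * z) * e1 +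
            σ u ^ 2 * z ^ 2 * hxs
        linear_combination h6
      linear_combination (z + σ u) * h5
    have e5 : z ^ (10 * k) = ((z ^ 5) ^ 2) ^ k := by rw [← pow_mul, ← pow_mul]; ring_nf
    rw [e5, e7]
    have e6 : ((-σ u ^ 5) ^ 2) ^ k = (σ u ^ k) ^ 10 := by
      rw [neg_sq, ← pow_mul, ← pow_mul, ← pow_mul]
      ring_nf
    rw [e6, hsu, one_pow]

/-- The case `n = 3`. -/
theorem finite_three {π : SatakeSystem K 3} (h : ∀ σ, π.IsCuspidal σ) {p : ℕ} (hp : π.Good p)
    (hc : (π.A p).trace = 0 ∨ ∃ k : ℕ, 0 < k ∧ (π.A p).trace ^ k = 1) :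
    π.FiniteOrder p := by
  have hmon := (π.A p).charpoly_monic
  have hdeg : (π.A p).charpoly.natDegree = 3 := by
    rw [Matrix.charpoly_natDegree_eq_dim, Fintype.card_fin]
  have htr : (π.A p).trace = -(π.A p).charpoly.coeff 2 := by
    rw [Matrix.trace_eq_neg_charpoly_coeff, Fintype.card_fin]
  obtain ⟨m, hm, hdet⟩ := π.det_root (by norm_num) h hp
  set c2 := (π.A p).charpoly.coeff 2 with hc2
  set c1 := (π.A p).charpoly.coeff 1 with hc1
  set c0 := (π.A p).charpoly.coeff 0 with hc0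
  have hroot : ∀ (σ : K →+* ℂ) (z : ℂ), ((π.A p).charpoly.map σ).IsRoot z →
      z ^ 3 + σ c2 * z ^ 2 + σ c1 * z + σ c0 = 0 := by
    intro σ z hz
    have := root_eq hmon hdeg σ hz
    rw [Finset.sum_range_succ, Finset.sum_range_succ, Finset.sum_range_succ,
      Finset.sum_range_zero, pow_zero, pow_one, mul_one, zero_add, ← hc0, ← hc1, ← hc2] at this
    linear_combination this
  have hσ0 : ∀ σ : K →+* ℂ, σ c0 ^ m = 1 := fun σ => by rw [← map_pow, hdet, map_one]
  have hrel : ∀ σ : K →+* ℂ, σ c1 = σ c0 * conj (σ c2) := by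
    intro σ
    obtain ⟨ξ, h1, h2, h3⟩ := π.coeff_rel (by norm_num) (h σ) hp
    have h4 := h3 2 (by norm_num) (by norm_num)
    norm_num at h4
    rw [← hc1, ← hc2] at h4
    rw [← hc0] at h2
    have h5 : -σ c0 = ξ := by rw [← h2]; norm_num
    rw [← h5] at h4
    linear_combination h4
  rcases hc with h0 | ⟨k, hk, h1⟩
  · refine ⟨6 * m, by positivity, fun σ z hz => ?_⟩
    have e1 := hroot σ z hz
    have h2 : c2 = 0 := by rw [htr] at h0; exact neg_eq_zero.1 h0
    have e2 := hrel σ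
    rw [h2, map_zero, map_zero, mul_zero] at e2
    rw [h2, e2, map_zero, zero_mul, zero_mul, add_zero, add_zero] at e1
    have h3 : z ^ 3 = -σ c0 := by linear_combination e1
    have h4 : z ^ (6 * m) = ((z ^ 3) ^ 2) ^ m := by rw [← pow_mul, ← pow_mul]; ring_nf
    rw [h4, h3, neg_sq, ← pow_mul, mul_comm 2 m, pow_mul, hσ0, one_pow]
  · refine ⟨4 * k * m, by positivity, fun σ z hz => ?_⟩
    have e1 := hroot σ z hz
    have hs1 : σ (π.A p).trace ^ k = 1 := by rw [← map_pow, h1, map_one]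
    set a := σ (π.A p).trace with ha
    have e4 : σ c2 = -a := by rw [ha, htr, map_neg, neg_neg]
    have ha0 : a ≠ 0 := by
      intro h
      rw [h, zero_pow hk.ne'] at hs1
      exact zero_ne_one hs1
    have hn1 : ‖a‖ = 1 := by
      have h5 : ‖a‖ ^ k = 1 := by rw [← norm_pow, hs1, norm_one]
      exact (pow_eq_one_iff_of_nonneg (norm_nonneg _) hk.ne').1 h5
    have e5 : a * conj a = 1 := by
      rw [Complex.mul_conj, Complex.normSq_eq_norm_sq, hn1]
      norm_num
    have e2 := hrel σ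
    rw [e4, map_neg] at e2
    -- `(z - a) (a z ^ 2 - c0) = 0`
    have e6 : (z - a) * (z ^ 2 - σ c0 * conj a) = 0 := by
      rw [e4, e2] at e1
      linear_combination e1 + σ c0 * e5
    rcases mul_eq_zero.1 e6 with h6 | h6
    · have : z = a := sub_eq_zero.1 h6
      rw [this, show 4 * k * m = k * (4 * m) by ring, pow_mul, hs1, one_pow]
    · have h7 : z ^ 2 = σ c0 * conj a := sub_eq_zero.1 h6
      have h8 : conj a ^ k = 1 := by rw [← map_pow, hs1, map_one]
      rw [show 4 * k * m = 2 * (2 * k * m) by ring, pow_mul, h7, mul_pow,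
        show 2 * k * m = m * (2 * k) by ring, pow_mul, hσ0, one_pow, one_mul,
        show m * (2 * k) = k * (2 * m) by ring, pow_mul, h8, one_pow]

end SatakeSystem

end Pool.Agent.H74V
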