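import Pool.Agent.W_7742q_h74.QFin

set_option autoImplicit false

/-!
# The density of the Satake classes of finite order
-/

noncomputable section

namespace Pool.Agent.H74V

open Filter Topology ComplexConjugate Pool.Agent.Maass74 Pool.Agent.Fin74

namespace SatakeSystem

variable {K : Type} [Field K] [NumberField K] {n : ℕ} (π : SatakeSystem K n)

open H74E.SatakeSystem in
/-- A pointwise inequality between indicator functions gives an inequality between the sums. -/
theorem density_of (h : π.ManyUnits2) {c0 c1 : ℝ} (hc1 : 0 < c1)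
    (hpt : ∀ p : ℕ, π.Good p → 10 * ind (fun p => π.Good p ∧ (π.A p).trace = 0) p +
      4 * ind (fun p => π.Good p ∧ ∃ k : ℕ, 0 < k ∧ (π.A p).trace ^ k = 1) p +
      ind (fun p => π.Good p ∧ ∃ (k : ℕ) (u x : K), 0 < k ∧ u ^ k = 1 ∧ x ^ 2 = x + 1 ∧
        (π.A p).trace = u * x) p ≤ c0 + c1 * ind (fun p => π.Good p ∧ π.FiniteOrder p) p)
    (hc0 : 0 ≤ c0) : π.ManyFinite ((4 - c0) / c1) := by
  classical
  intro ε hε
  set PZ : ℕ → Prop := fun p => π.Good p ∧ (π.A p).trace = 0 with hPZ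
  set PU : ℕ → Prop := fun p => π.Good p ∧ ∃ k : ℕ, 0 < k ∧ (π.A p).trace ^ k = 1 with hPU
  set PG : ℕ → Prop := fun p => π.Good p ∧ ∃ (k : ℕ) (u x : K), 0 < k ∧ u ^ k = 1 ∧
    x ^ 2 = x + 1 ∧ (π.A p).trace = u * x with hPG
  set PF : ℕ → Prop := fun p => π.Good p ∧ π.FiniteOrder p with hPF
  filter_upwards [h (ε * c1) (by positivity), self_mem_nhdsWithin] with s h1 h5
  have hs : (1 : ℝ) < s := h5
  have hps : ∀ (P : ℕ → Prop) (s : ℝ), primeSum P s =
      ∑' p : Nat.Primes, ind P p * ((p : ℕ) : ℝ) ^ (-s) := fun P s =>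
    H74E.SatakeSystem.primeSum_eq P s
  have hPsum := H74E.summable_primes_rpow hs
  have hind : ∀ Q : ℕ → Prop, Summable fun p : Nat.Primes =>
      ind Q p * ((p : ℕ) : ℝ) ^ (-s) := by
    intro Q
    refine Summable.of_nonneg_of_le (fun p => mul_nonneg (ind_nonneg _ _) (by positivity))
      (fun p => ?_) hPsum
    exact mul_le_of_le_one_left (by positivity) (ind_le_one _ _)
  have hsum : 10 * primeSum PZ s + 4 * primeSum PU s + primeSum PG s ≤
      c0 * primeSum (fun _ => True) s + c1 * primeSum PF s := by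
    rw [hps, hps, hps, hps, hps, ← tsum_mul_left, ← tsum_mul_left, ← tsum_mul_left,
      ← tsum_mul_left, ← ((hind PZ).mul_left _).tsum_add ((hind PU).mul_left _),
      ← (((hind PZ).mul_left _).add ((hind PU).mul_left _)).tsum_add (hind PG),
      ← ((hind (fun _ => True)).mul_left _).tsum_add ((hind PF).mul_left _)]
    refine ((((hind PZ).mul_left _).add ((hind PU).mul_left _)).add (hind PG)).tsum_le_tsum
      (fun p => ?_) (((hind (fun _ => True)).mul_left _).add ((hind PF).mul_left _))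
    have hpp : (0 : ℝ) ≤ ((p : ℕ) : ℝ) ^ (-s) := by positivity
    have h2 : 10 * ind PZ p + 4 * ind PU p + ind PG p ≤ c0 * ind (fun _ => True) p +
        c1 * ind PF p := by
      rw [ind_pos (P := fun _ => True) trivial, mul_one]
      by_cases hg : π.Good p
      · exact hpt p hg
      · rw [ind_neg (P := PZ) (fun h => hg h.1), ind_neg (P := PU) (fun h => hg h.1),
          ind_neg (P := PG) (fun h => hg h.1)]
        have := mul_nonneg hc1.le (ind_nonneg PF p)
        linarith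
    have := mul_le_mul_of_nonneg_right h2 hpp
    linarith
  have h6 : (4 - ε * c1) * primeSum (fun _ => True) s ≤
      c0 * primeSum (fun _ => True) s + c1 * primeSum PF s := h1.trans hsum
  have h7 : ((4 - c0) / c1 - ε) * primeSum (fun _ => True) s * c1 ≤ primeSum PF s * c1 := by
    have : ((4 - c0) / c1 - ε) * primeSum (fun _ => True) s * c1 =
        (4 - c0 - ε * c1) * primeSum (fun _ => True) s := by
      field_simp
    rw [this]
    linarith
  exact le_of_mul_le_mul_right h7 hc1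

/-- Zero is not a root of unity. -/
lemma not_root_of_zero {a : K} (h : a = 0) : ¬ ∃ k : ℕ, 0 < k ∧ a ^ k = 1 := by
  rintro ⟨k, hk, h1⟩
  rw [h, zero_pow hk.ne'] at h1
  exact zero_ne_one h1

lemma not_golden_of_zero {a : K} (h : a = 0) :
    ¬ ∃ (k : ℕ) (u x : K), 0 < k ∧ u ^ k = 1 ∧ x ^ 2 = x + 1 ∧ a = u * x := by
  rintro ⟨k, u, x, hk, h1, h2, h3⟩
  rw [h] at h3
  rcases mul_eq_zero.1 h3.symm with h4 | h4
  · rw [h4, zero_pow hk.ne'] at h1
    exact zero_ne_one h1
  · rw [h4] at h2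
    norm_num at h2

open H74E.SatakeSystem in
/-- The main theorem. -/
theorem finite_main (hn : 2 ≤ n) (h : ∀ σ, π.IsCuspidal σ) :
    π.ManyUnits2 ∧ (n = 2 → π.ManyFinite (2 / 5)) ∧
      (n = 3 → π.ManyFinite (1 / 3) ∧ ((∀ x : K, x ^ 2 ≠ 5) → π.ManyFinite (2 / 5))) := by
  classical
  have hM : π.ManyUnits2 := π.manyUnits2 fun σ => isBounded_of_isCuspidal hn (h σ)
  refine ⟨hM, ?_, ?_⟩
  · rintro rfl
    have key := π.density_of hM (c0 := 0) (c1 := 10) (by norm_num) ?_ le_rfl
    · norm_num at key ⊢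
      exact key
    intro p hp
    have i1 := ind_le_one (fun p => π.Good p ∧ (π.A p).trace = 0) p
    have i2 := ind_le_one (fun p => π.Good p ∧ ∃ k : ℕ, 0 < k ∧ (π.A p).trace ^ k = 1) p
    have i3 := ind_le_one (fun p => π.Good p ∧ ∃ (k : ℕ) (u x : K), 0 < k ∧ u ^ k = 1 ∧
        x ^ 2 = x + 1 ∧ (π.A p).trace = u * x) p
    by_cases hZ : (π.A p).trace = 0
    · rw [ind_neg (P := fun p => π.Good p ∧ ∃ k : ℕ, 0 < k ∧ (π.A p).trace ^ k = 1)
          (fun h => not_root_of_zero hZ h.2),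
        ind_neg (P := fun p => π.Good p ∧ ∃ (k : ℕ) (u x : K), 0 < k ∧ u ^ k = 1 ∧
          x ^ 2 = x + 1 ∧ (π.A p).trace = u * x) (fun h => not_golden_of_zero hZ h.2),
        ind_pos (P := fun p => π.Good p ∧ π.FiniteOrder p)
          ⟨hp, finite_two h hp (Or.inl hZ)⟩]
      linarith
    rw [ind_neg (P := fun p => π.Good p ∧ (π.A p).trace = 0) (fun h => hZ h.2)]
    by_cases hU : ∃ k : ℕ, 0 < k ∧ (π.A p).trace ^ k = 1
    · rw [ind_pos (P := fun p => π.Good p ∧ π.FiniteOrder p)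
          ⟨hp, finite_two h hp (Or.inr (Or.inl hU))⟩]
      linarith
    rw [ind_neg (P := fun p => π.Good p ∧ ∃ k : ℕ, 0 < k ∧ (π.A p).trace ^ k = 1)
      (fun h => hU h.2)]
    by_cases hG : ∃ (k : ℕ) (u x : K), 0 < k ∧ u ^ k = 1 ∧ x ^ 2 = x + 1 ∧
        (π.A p).trace = u * x
    · rw [ind_pos (P := fun p => π.Good p ∧ π.FiniteOrder p)
          ⟨hp, finite_two h hp (Or.inr (Or.inr hG))⟩]
      linarith
    rw [ind_neg (P := fun p => π.Good p ∧ ∃ (k : ℕ) (u x : K), 0 < k ∧ u ^ k = 1 ∧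
          x ^ 2 = x + 1 ∧ (π.A p).trace = u * x) (fun h => hG h.2)]
    have := ind_nonneg (fun p => π.Good p ∧ π.FiniteOrder p) p
    linarith
  · rintro rfl
    refine ⟨?_, fun h5 => ?_⟩
    · have key := π.density_of hM (c0 := 1) (c1 := 9) (by norm_num) ?_ zero_le_one
      · norm_num at key ⊢
        exact key
      intro p hp
      have i1 := ind_le_one (fun p => π.Good p ∧ (π.A p).trace = 0) p
      have i2 := ind_le_one (fun p => π.Good p ∧ ∃ k : ℕ, 0 < k ∧ (π.A p).trace ^ k = 1) p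
      have i3 := ind_le_one (fun p => π.Good p ∧ ∃ (k : ℕ) (u x : K), 0 < k ∧ u ^ k = 1 ∧
          x ^ 2 = x + 1 ∧ (π.A p).trace = u * x) p
      by_cases hZ : (π.A p).trace = 0
      · rw [ind_neg (P := fun p => π.Good p ∧ ∃ k : ℕ, 0 < k ∧ (π.A p).trace ^ k = 1)
            (fun h => not_root_of_zero hZ h.2),
          ind_neg (P := fun p => π.Good p ∧ ∃ (k : ℕ) (u x : K), 0 < k ∧ u ^ k = 1 ∧
            x ^ 2 = x + 1 ∧ (π.A p).trace = u * x) (fun h => not_golden_of_zero hZ h.2),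
          ind_pos (P := fun p => π.Good p ∧ π.FiniteOrder p)
            ⟨hp, finite_three h hp (Or.inl hZ)⟩]
        linarith
      rw [ind_neg (P := fun p => π.Good p ∧ (π.A p).trace = 0) (fun h => hZ h.2)]
      by_cases hU : ∃ k : ℕ, 0 < k ∧ (π.A p).trace ^ k = 1
      · rw [ind_pos (P := fun p => π.Good p ∧ π.FiniteOrder p)
            ⟨hp, finite_three h hp (Or.inr hU)⟩]
        linarith
      rw [ind_neg (P := fun p => π.Good p ∧ ∃ k : ℕ, 0 < k ∧ (π.A p).trace ^ k = 1)
        (fun h => hU h.2)]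
      have := ind_nonneg (fun p => π.Good p ∧ π.FiniteOrder p) p
      linarith
    · have key := π.density_of hM (c0 := 0) (c1 := 10) (by norm_num) ?_ le_rfl
      · norm_num at key ⊢
        exact key
      intro p hp
      have i1 := ind_le_one (fun p => π.Good p ∧ (π.A p).trace = 0) p
      have i2 := ind_le_one (fun p => π.Good p ∧ ∃ k : ℕ, 0 < k ∧ (π.A p).trace ^ k = 1) p
      rw [ind_neg (P := fun p => π.Good p ∧ ∃ (k : ℕ) (u x : K), 0 < k ∧ u ^ k = 1 ∧
          x ^ 2 = x + 1 ∧ (π.A p).trace = u * x) (by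
            rintro ⟨-, k, u, x, -, -, hx, -⟩
            exact h5 (2 * x - 1) (by linear_combination 4 * hx))]
      by_cases hZ : (π.A p).trace = 0
      · rw [ind_neg (P := fun p => π.Good p ∧ ∃ k : ℕ, 0 < k ∧ (π.A p).trace ^ k = 1)
            (fun h => not_root_of_zero hZ h.2),
          ind_pos (P := fun p => π.Good p ∧ π.FiniteOrder p)
            ⟨hp, finite_three h hp (Or.inl hZ)⟩]
        linarith
      rw [ind_neg (P := fun p => π.Good p ∧ (π.A p).trace = 0) (fun h => hZ h.2)]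
      by_cases hU : ∃ k : ℕ, 0 < k ∧ (π.A p).trace ^ k = 1
      · rw [ind_pos (P := fun p => π.Good p ∧ π.FiniteOrder p)
            ⟨hp, finite_three h hp (Or.inr hU)⟩]
        linarith
      rw [ind_neg (P := fun p => π.Good p ∧ ∃ k : ℕ, 0 < k ∧ (π.A p).trace ^ k = 1)
        (fun h => hU h.2)]
      have := ind_nonneg (fun p => π.Good p ∧ π.FiniteOrder p) p
      linarith

end SatakeSystem

end Pool.Agent.H74V
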