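import Pool.Agent.W_7742q_h74.QStm
import Pool.Agent.W_7742q_h74.QDen

set_option autoImplicit false

/-!
# Traces which are zero, roots of unity or golden
-/

noncomputable section

namespace Pool.Agent.H74V

open Filter Topology ComplexConjugate Pool.Agent.Maass74 Pool.Agent.Fin74
open Pool.Agent.H74E (pk pk_nonneg pk_eq)

namespace SatakeSystem

variable {K : Type} [Field K] [NumberField K] {n : ℕ} (π : SatakeSystem K n)

/-- The golden traces. -/
def Golden (a : K) : Prop :=
  ∃ (k : ℕ) (u x : K), 0 < k ∧ u ^ k = 1 ∧ x ^ 2 = x + 1 ∧ a = u * x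

/-- The pointwise bounds for the mean square of the trace. -/
theorem mean_square (hu : ∀ σ, π.Unitary σ) {p : ℕ} (hp : π.Good p) (h0 : (π.A p).trace ≠ 0)
    (h1 : ¬ ∃ k : ℕ, 0 < k ∧ (π.A p).trace ^ k = 1) :
    3 / 2 * (Fintype.card (K →+* ℂ) : ℝ) ≤ ∑ σ : K →+* ℂ, ‖σ (π.A p).trace‖ ^ 2 ∧
    (¬ Golden (π.A p).trace →
      5 / 3 * (Fintype.card (K →+* ℂ) : ℝ) ≤ ∑ σ : K →+* ℂ, ‖σ (π.A p).trace‖ ^ 2) := by
  have hint : IsIntegral ℤ (π.A p).trace := by
    have σ : K →+* ℂ := Classical.choice inferInstance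
    apply H74F.isIntegral_of_map σ
    have := H74F.trace_integral σ (π.integral p hp.1 hp.2) 1
    rwa [pow_one] at this
  have hint' : IsIntegral ℤ (π.A p)⁻¹.trace := by
    have σ : K →+* ℂ := Classical.choice inferInstance
    apply H74F.isIntegral_of_map σ
    have h1 := hu σ p hp 1
    rw [pow_one, pow_one] at h1
    rw [← h1]
    exact (hint.map σ.toIntAlgHom).map (starRingEnd ℂ).toIntAlgHom
  set a := (π.A p).trace with ha
  set y := a * (π.A p)⁻¹.trace with hy
  have hyσ : ∀ σ : K →+* ℂ, σ y = ((‖σ a‖ ^ 2 : ℝ) : ℂ) := by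
    intro σ
    have h1 := hu σ p hp 1
    rw [pow_one, pow_one] at h1
    rw [hy, map_mul, ← h1, Complex.mul_conj, Complex.normSq_eq_norm_sq]
  have hpos : ∀ σ : K →+* ℂ, 0 ≤ ‖σ a‖ ^ 2 := fun σ => by positivity
  have hyint : IsIntegral ℤ y := hint.mul hint'
  have σ0 : K →+* ℂ := Classical.choice inferInstance
  have hy0 : y ≠ 0 := by
    intro h
    have := hyσ σ0
    rw [h, map_zero] at this
    have h2 : ‖σ0 a‖ ^ 2 = 0 := by exact_mod_cast this.symm
    have h3 : ‖σ0 a‖ = 0 := by simpa using h2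
    rw [norm_eq_zero, map_eq_zero] at h3
    exact h0 h3
  have hy1 : y ≠ 1 := by
    intro h
    have hn1 : ∀ σ : K →+* ℂ, ‖σ a‖ = 1 := by
      intro σ
      have := hyσ σ
      rw [h, map_one] at this
      have h2 : ‖σ a‖ ^ 2 = 1 := by exact_mod_cast this.symm
      exact (pow_eq_one_iff_of_nonneg (norm_nonneg _) two_ne_zero).1 h2
    obtain ⟨k, hk, hpow⟩ := NumberField.Embeddings.pow_eq_one_of_norm_eq_one K ℂ hint hn1
    exact h1 ⟨k, hk, hpow⟩
  refine ⟨H74E.siegel hyint hy0 hy1 hyσ hpos, fun hG => siegel2 hyint hy0 hy1 ?_ hyσ hpos⟩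
  intro hgold
  apply hG
  -- the golden case
  set x := y - 1 with hx
  have hx2 : x ^ 2 = x + 1 := by
    rw [hx]
    linear_combination hgold
  have hx0 : x ≠ 0 := by
    intro h
    rw [h] at hx2
    norm_num at hx2
  have hxy : y = x ^ 2 := by rw [hx2, hx]; ring
  have hxinv : x⁻¹ = x - 1 := by
    have : x * (x - 1) = 1 := by linear_combination hx2
    field_simp
    linear_combination -this
  have hxi : IsIntegral ℤ x⁻¹ := by
    rw [hxinv, hx]
    exact (hyint.sub isIntegral_one).sub isIntegral_one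
  have huint : IsIntegral ℤ (a * x⁻¹) := hint.mul hxi
  have hnorm : ∀ σ : K →+* ℂ, ‖σ (a * x⁻¹)‖ = 1 := by
    intro σ
    have e1 : ‖σ x‖ ^ 2 = ‖σ a‖ ^ 2 := by
      have h2 := hyσ σ
      rw [hxy, map_pow] at h2
      have h3 := congrArg norm h2
      rw [norm_pow, Complex.norm_real, Real.norm_of_nonneg (hpos σ)] at h3
      exact h3
    have e2 : ‖σ x‖ = ‖σ a‖ := (pow_left_inj₀ (norm_nonneg _) (norm_nonneg _) two_ne_zero).1 e1
    have e3 : ‖σ x‖ ≠ 0 := by
      rw [norm_ne_zero_iff]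
      exact (map_ne_zero σ).2 hx0
    rw [map_mul, map_inv₀, norm_mul, norm_inv, ← e2, mul_inv_cancel₀ e3]
  obtain ⟨k, hk, hpow⟩ := NumberField.Embeddings.pow_eq_one_of_norm_eq_one K ℂ huint hnorm
  exact ⟨k, a * x⁻¹, x, hk, hpow, hx2, by rw [mul_assoc, inv_mul_cancel₀ hx0, mul_one]⟩

open H74E.SatakeSystem in
/-- The sum of weights. -/
theorem manyUnits2 (h : ∀ σ, π.IsBounded σ) : π.ManyUnits2 := by
  classical
  intro ε hε
  have hu : ∀ σ, π.Unitary σ := fun σ => (h σ).1
  set PZ : ℕ → Prop := fun p => π.Good p ∧ (π.A p).trace = 0 with hPZ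
  set PU : ℕ → Prop := fun p => π.Good p ∧ ∃ k : ℕ, 0 < k ∧ (π.A p).trace ^ k = 1 with hPU
  set PG : ℕ → Prop := fun p => π.Good p ∧ Golden (π.A p).trace with hPG
  set PB : ℕ → Prop := fun p => p ∣ π.level with hPB
  set w : ℕ → ℝ := fun p => if ¬ π.Good p then 0 else if PZ p then 0 else if PU p then 1 else
    if PG p then 3 / 2 else 5 / 3 with hw
  set d : ℝ := (Fintype.card (K →+* ℂ) : ℝ) with hd
  have hd0 : 0 ≤ d := by positivity
  have hw0 : ∀ p, 0 ≤ w p := by
    intro p
    simp only [hw]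
    split_ifs <;> norm_num
  have hw1 : ∀ p, π.Good p → w p * d ≤ ∑ σ : K →+* ℂ, ‖σ (π.A p).trace‖ ^ 2 := by
    intro p hp
    have hS : 0 ≤ ∑ σ : K →+* ℂ, ‖σ (π.A p).trace‖ ^ 2 :=
      Finset.sum_nonneg fun σ _ => by positivity
    simp only [hw]
    rw [if_neg (not_not.2 hp)]
    by_cases hZ : PZ p
    · rw [if_pos hZ, zero_mul]
      exact hS
    rw [if_neg hZ]
    by_cases hU : PU p
    · rw [if_pos hU, one_mul]
      obtain ⟨k, hk, hpow⟩ := hU.2
      have hn1 : ∀ σ : K →+* ℂ, ‖σ (π.A p).trace‖ = 1 := by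
        intro σ
        have h1 : ‖σ (π.A p).trace‖ ^ k = 1 := by
          rw [← norm_pow, ← map_pow, hpow, map_one, norm_one]
        exact (pow_eq_one_iff_of_nonneg (norm_nonneg _) hk.ne').1 h1
      simp only [hn1]
      rw [Finset.sum_const, Finset.card_univ, nsmul_eq_mul, ← hd]
      linarith
    rw [if_neg hU]
    have h0 : (π.A p).trace ≠ 0 := fun h => hZ ⟨hp, h⟩
    have h1 : ¬ ∃ k : ℕ, 0 < k ∧ (π.A p).trace ^ k = 1 := fun h => hU ⟨hp, h⟩
    obtain ⟨m1, m2⟩ := π.mean_square hu hp h0 h1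
    by_cases hG : PG p
    · rw [if_pos hG]
      exact m1
    · rw [if_neg hG]
      exact m2 fun h => hG ⟨hp, h⟩
  have hwb : ∀ p, ¬ π.Good p → w p = 0 := by
    intro p hp
    simp only [hw]
    rw [if_pos hp]
  obtain ⟨hws, key⟩ := π.weighted h w hw0 hw1 hwb
  -- the pointwise inequality
  have hpt : ∀ p : Nat.Primes, (5 / 3 : ℝ) ≤ w p + 5 / 3 * ind PZ p + 2 / 3 * ind PU p +
      1 / 6 * ind PG p + 5 / 3 * ind PB p := by
    intro p
    have i1 := ind_nonneg PZ p
    have i2 := ind_nonneg PU p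
    have i3 := ind_nonneg PG p
    have i4 := ind_nonneg PB p
    have i5 := hw0 p
    by_cases hB : PB p
    · rw [ind_pos hB]
      linarith
    have hg : π.Good p := ⟨p.2, hB⟩
    by_cases hZ : PZ p
    · rw [ind_pos hZ]
      linarith
    by_cases hU : PU p
    · rw [ind_pos hU]
      have : w p = 1 := by
        simp only [hw]
        rw [if_neg (not_not.2 hg), if_neg hZ, if_pos hU]
      linarith
    by_cases hG : PG p
    · rw [ind_pos hG]
      have : w p = 3 / 2 := by
        simp only [hw]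
        rw [if_neg (not_not.2 hg), if_neg hZ, if_neg hU, if_pos hG]
      linarith
    · have : w p = 5 / 3 := by
        simp only [hw]
        rw [if_neg (not_not.2 hg), if_neg hZ, if_neg hU, if_neg hG]
      linarith
  -- the bad primes
  have hBad : ∀ s : ℝ, 1 < s → primeSum PB s ≤ ((∑ p ∈ π.level.primeFactors, 1 : ℕ) : ℝ) := by
    intro s hs
    have hset : {p : ℕ | p.Prime ∧ p ∣ π.level} = (π.level.primeFactors : Set ℕ) := by
      ext p
      simp [Nat.mem_primeFactors, π.level_pos.ne']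
    have e1 : primeSum PB s = ∑' p : (π.level.primeFactors : Set ℕ), ((p : ℕ) : ℝ) ^ (-s) := by
      rw [← hset]
      rfl
    rw [e1, Finset.tsum_subtype' π.level.primeFactors (fun p : ℕ => (p : ℝ) ^ (-s))]
    push_cast
    refine Finset.sum_le_sum fun p hp => ?_
    have h1p : (1 : ℝ) ≤ (p : ℝ) := by
      exact_mod_cast (Nat.prime_of_mem_primeFactors hp).one_lt.le
    exact Real.rpow_le_one_of_one_le_of_nonpos h1p (by linarith)
  have hps : ∀ (P : ℕ → Prop) (s : ℝ), primeSum P s =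
      ∑' p : Nat.Primes, ind P p * ((p : ℕ) : ℝ) ^ (-s) := fun P s =>
    H74E.SatakeSystem.primeSum_eq P s
  set C : ℝ := ((∑ p ∈ π.level.primeFactors, 1 : ℕ) : ℝ) with hC
  -- the sum of `p ^ (-s)` tends to infinity
  obtain ⟨C0, hC0⟩ := neg_log_le_primes
  filter_upwards [key (ε / 12) (by positivity), hC0,
    tendsto_neg_log.eventually_ge_atTop (20 * C / ε + C0), self_mem_nhdsWithin] with s h1 h2 h3 h5
  have hs : (1 : ℝ) < s := h5
  have hPsum := H74E.summable_primes_rpow hs
  set P : ℝ := ∑' p : Nat.Primes, ((p : ℕ) : ℝ) ^ (-s) with hP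
  have hall1 : primeSum (fun _ => True) s = P := by
    rw [hps, hP]
    exact tsum_congr fun p => by rw [ind_pos (P := fun _ => True) trivial, one_mul]
  have hind : ∀ Q : ℕ → Prop, Summable fun p : Nat.Primes =>
      ind Q p * ((p : ℕ) : ℝ) ^ (-s) := by
    intro Q
    refine Summable.of_nonneg_of_le (fun p => mul_nonneg (ind_nonneg _ _) (by positivity))
      (fun p => ?_) hPsum
    exact mul_le_of_le_one_left (by positivity) (ind_le_one _ _)
  have hsum : 5 / 3 * P ≤ ∑' p : Nat.Primes, w p * ((p : ℕ) : ℝ) ^ (-s) +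
      5 / 3 * primeSum PZ s + 2 / 3 * primeSum PU s + 1 / 6 * primeSum PG s +
      5 / 3 * primeSum PB s := by
    rw [hps, hps, hps, hps, hP, ← tsum_mul_left, ← tsum_mul_left, ← tsum_mul_left,
      ← tsum_mul_left, ← tsum_mul_left,
      ← (hws s hs).tsum_add ((hind PZ).mul_left _),
      ← ((hws s hs).add ((hind PZ).mul_left _)).tsum_add ((hind PU).mul_left _),
      ← (((hws s hs).add ((hind PZ).mul_left _)).add ((hind PU).mul_left _)).tsum_add
        ((hind PG).mul_left _),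
      ← ((((hws s hs).add ((hind PZ).mul_left _)).add ((hind PU).mul_left _)).add
        ((hind PG).mul_left _)).tsum_add ((hind PB).mul_left _)]
    refine (hPsum.mul_left _).tsum_le_tsum (fun p => ?_)
      (((((hws s hs).add ((hind PZ).mul_left _)).add ((hind PU).mul_left _)).add
        ((hind PG).mul_left _)).add ((hind PB).mul_left _))
    have hpp : (0 : ℝ) ≤ ((p : ℕ) : ℝ) ^ (-s) := by positivity
    have := mul_le_mul_of_nonneg_right (hpt p) hpp
    linarith
  have hbad := hBad s hs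
  rw [hall1] at h1 ⊢
  have hPC : 20 * C / ε ≤ P := by linarith
  have hPC' : 20 * C ≤ ε * P := by
    rw [div_le_iff₀ hε] at hPC
    linarith
  have hgoal : (4 - ε) * P ≤ 10 * primeSum PZ s + 4 * primeSum PU s + primeSum PG s := by
    linarith
  exact hgoal

end SatakeSystem

end Pool.Agent.H74V
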