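import Pool.Agent.W_7742v_h74.Stmt

/-! Definitions for the statement about traces which are zero, roots of unity or golden. -/

set_option autoImplicit false

noncomputable section

namespace Pool.Agent.H74V

open Filter Topology ComplexConjugate

namespace SatakeSystem

variable {K : Type} [Field K] [NumberField K] {n : ℕ} (π : SatakeSystem K n)

/-- Ten times the density of the primes with `tr A p = 0` plus four times the density of the primes
such that `tr A p` is a root of unity plus the density of the primes such that `tr A p` is the
product of a root of unity and of a root of `x ^ 2 = x + 1` is at least four (in the sense of lower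
Dirichlet densities). -/
def ManyUnits2 : Prop :=
  ∀ ε : ℝ, 0 < ε → ∀ᶠ s in 𝓝[>] (1 : ℝ), (4 - ε) * primeSum (fun _ => True) s ≤
    10 * primeSum (fun p => π.Good p ∧ (π.A p).trace = 0) s +
      4 * primeSum (fun p => π.Good p ∧ ∃ k : ℕ, 0 < k ∧ (π.A p).trace ^ k = 1) s +
      primeSum (fun p => π.Good p ∧ ∃ (k : ℕ) (u x : K), 0 < k ∧ u ^ k = 1 ∧ x ^ 2 = x + 1 ∧
        (π.A p).trace = u * x) s

/-- All the eigenvalues of `A p` are roots of unity: there is an `m > 0` such that all complex roots
of all the conjugates of the characteristic polynomial of `A p` are `m`-th roots of unity. -/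
def FiniteOrder (p : ℕ) : Prop :=
  ∃ m : ℕ, 0 < m ∧ ∀ (σ : K →+* ℂ) (z : ℂ), ((π.A p).charpoly.map σ).IsRoot z → z ^ m = 1

/-- The density of the primes such that all the eigenvalues of `A p` are roots of unity is at least
`c` (in the sense of the lower Dirichlet density). -/
def ManyFinite (c : ℝ) : Prop :=
  ∀ ε : ℝ, 0 < ε → ∀ᶠ s in 𝓝[>] (1 : ℝ), (c - ε) * primeSum (fun _ => True) s ≤
    primeSum (fun p => π.Good p ∧ π.FiniteOrder p) s

end SatakeSystem

end Pool.Agent.H74V
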